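import Mathlib

set_option autoImplicit false

/-!
# Colourings: compactness and bounded out-degree
-/

namespace Pool.Agent.H5.WI

open Finset

/-- compactness for colourings of a hypergraph with finite edges on `ℕ` -/
theorem exists_col (m : ℕ) (H : Set (Finset ℕ))
    (h : ∀ n, ∃ c : ℕ → Fin m, ∀ s ∈ H, s ⊆ Finset.range n → ¬ ∃ j, ∀ i ∈ s, c i = j) :
    ∃ c : ℕ → Fin m, ∀ s ∈ H, ¬ ∃ j, ∀ i ∈ s, c i = j := by
  let C : ℕ → Set (ℕ → Fin m) := fun n =>
    {c | ∀ s ∈ H, s ⊆ Finset.range n → ¬ ∃ j, ∀ i ∈ s, c i = j}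
  have hanti : ∀ n, C (n + 1) ⊆ C n := fun n c hc s hs hsn =>
    hc s hs (hsn.trans (Finset.range_subset_range.2 (Nat.le_succ n)))
  have hne : ∀ n, (C n).Nonempty := h
  have hcl : ∀ n, IsClosed (C n) := by
    intro n
    have e : C n = ⋂ s ∈ H, ⋂ (_ : s ⊆ Finset.range n), {c | ¬ ∃ j, ∀ i ∈ s, c i = j} := by
      ext c
      simp only [C, Set.mem_setOf_eq, Set.mem_iInter]
    rw [e]
    refine isClosed_iInter fun s => isClosed_iInter fun _ => isClosed_iInter fun _ => ?_
    have e2 : {c : ℕ → Fin m | ¬ ∃ j, ∀ i ∈ s, c i = j} =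
        (⋃ j, ⋂ i ∈ s, {c : ℕ → Fin m | c i = j})ᶜ := by
      ext c
      simp only [Set.mem_setOf_eq, Set.mem_compl_iff, Set.mem_iUnion, Set.mem_iInter]
    rw [e2, isClosed_compl_iff]
    refine isOpen_iUnion fun j => ?_
    refine isOpen_biInter_finset fun i _ => ?_
    exact (continuous_apply (A := fun _ : ℕ => Fin m) i).isOpen_preimage {j} (isOpen_discrete _)
  obtain ⟨c, hc⟩ := IsCompact.nonempty_iInter_of_sequence_nonempty_isCompact_isClosed C hanti hne
    (hcl 0).isCompact hcl
  refine ⟨c, fun s hs hj => ?_⟩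
  obtain ⟨n, hn⟩ : ∃ n, s ⊆ Finset.range n := by
    refine ⟨s.sup id + 1, fun i hi => ?_⟩
    rw [Finset.mem_range]
    exact Nat.lt_succ_of_le (Finset.le_sup (f := id) hi)
  exact (Set.mem_iInter.1 hc n) s hs hn hj

/-- a finite digraph with out-degrees at most `k` has a proper colouring with `2 k + 1` colours -/
theorem col_fin (k : ℕ) (out : ℕ → Finset ℕ) (hout : ∀ x, (out x).card ≤ k) :
    ∀ n : ℕ, ∀ S : Finset ℕ, S.card = n → ∃ c : ℕ → Fin (2 * k + 1),
      ∀ x ∈ S, ∀ y ∈ S, y ∈ out x → y ≠ x → c x ≠ c y := by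
  intro n
  induction n with
  | zero =>
    intro S hS
    rw [Finset.card_eq_zero] at hS
    subst hS
    exact ⟨fun _ => 0, fun x hx => absurd hx (Finset.notMem_empty x)⟩
  | succ n ih =>
    intro S hS
    have hSne : S.Nonempty := by
      rw [← Finset.card_pos]
      omega
    -- a vertex of small in-degree
    obtain ⟨v, hv, hvin⟩ : ∃ v ∈ S, (S.filter fun x => v ∈ out x).card ≤ k := by
      by_contra hcon
      push Not at hcon
      have h1 : ∑ v ∈ S, (S.filter fun x => v ∈ out x).card = ∑ x ∈ S, (S.filter fun v => v ∈ out x).card := by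
        simp only [Finset.card_filter]
        exact Finset.sum_comm
      have h2 : ∑ x ∈ S, (S.filter fun v => v ∈ out x).card ≤ ∑ x ∈ S, k := by
        apply Finset.sum_le_sum
        intro x _
        refine (Finset.card_le_card ?_).trans (hout x)
        intro v hv
        exact (Finset.mem_filter.1 hv).2
      have h3 : ∑ v ∈ S, (k + 1) ≤ ∑ v ∈ S, (S.filter fun x => v ∈ out x).card :=
        Finset.sum_le_sum fun v hv => hcon v hv
      rw [Finset.sum_const, smul_eq_mul] at h2 h3
      have h4 : 0 < S.card := by omega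
      nlinarith
    obtain ⟨c, hc⟩ := ih (S.erase v) (by rw [Finset.card_erase_of_mem hv]; omega)
    -- the neighbours of `v`
    set N : Finset ℕ := (S.filter fun x => v ∈ out x) ∪ out v with hN
    have hNc : (N.image c).card ≤ 2 * k := by
      refine Finset.card_image_le.trans ((Finset.card_union_le _ _).trans ?_)
      have := hout v
      omega
    obtain ⟨j, hj⟩ : ∃ j : Fin (2 * k + 1), j ∉ N.image c := by
      by_contra hcon
      push Not at hcon
      have h1 : (Finset.univ : Finset (Fin (2 * k + 1))).card ≤ (N.image c).card :=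
        Finset.card_le_card fun j _ => hcon j
      rw [Finset.card_univ, Fintype.card_fin] at h1
      omega
    refine ⟨Function.update c v j, ?_⟩
    intro x hx y hy hxy hne
    by_cases hxv : x = v
    · subst hxv
      rw [Function.update_self, Function.update_of_ne hne]
      intro h
      apply hj
      rw [h]
      exact Finset.mem_image_of_mem c (Finset.mem_union_right _ hxy)
    · by_cases hyv : y = v
      · subst hyv
        rw [Function.update_self, Function.update_of_ne hxv]
        intro h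
        apply hj
        rw [← h]
        exact Finset.mem_image_of_mem c (Finset.mem_union_left _ (Finset.mem_filter.2 ⟨hx, hxy⟩))
      · rw [Function.update_of_ne hxv, Function.update_of_ne hyv]
        exact hc x (Finset.mem_erase.2 ⟨hxv, hx⟩) y (Finset.mem_erase.2 ⟨hyv, hy⟩) hxy hne

/-- the same for infinite digraphs -/
theorem col_out (k : ℕ) (out : ℕ → Finset ℕ) (hout : ∀ x, (out x).card ≤ k) :
    ∃ c : ℕ → Fin (2 * k + 1), ∀ x y, y ∈ out x → y ≠ x → c x ≠ c y := by
  classical
  obtain ⟨c, hc⟩ := exists_col (2 * k + 1) {s | ∃ x y, y ∈ out x ∧ y ≠ x ∧ s = {x, y}} (by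
    intro n
    obtain ⟨c, hc⟩ := col_fin k out hout _ (Finset.range n) rfl
    refine ⟨c, ?_⟩
    rintro s ⟨x, y, hxy, hne, rfl⟩ hsn ⟨j, hj⟩
    have hx : x ∈ Finset.range n := hsn (by simp)
    have hy : y ∈ Finset.range n := hsn (by simp)
    apply hc x hx y hy hxy hne
    rw [hj x (by simp), hj y (by simp)])
  refine ⟨c, fun x y hxy hne h => ?_⟩
  apply hc {x, y} ⟨x, y, hxy, hne, rfl⟩
  refine ⟨c x, fun i hi => ?_⟩
  rw [Finset.mem_insert, Finset.mem_singleton] at hi
  rcases hi with rfl | rfl
  · rfl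
  · exact h.symm

end Pool.Agent.H5.WI
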