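import Mathlib

set_option autoImplicit false

/-!
# No relations in a class with private blocks
-/

namespace Pool.Agent.H5.WI

open Finset

theorem pow_mul_le {N : ℕ → ℕ} (h2 : ∀ l, 2 * N l ≤ N (l + 1)) (l k : ℕ) :
    2 ^ k * N l ≤ N (l + k) := by
  induction k with
  | zero => simp
  | succ k ih =>
    calc 2 ^ (k + 1) * N l = 2 * (2 ^ k * N l) := by ring
      _ ≤ 2 * N (l + k) := Nat.mul_le_mul_left _ ih
      _ ≤ N (l + k + 1) := h2 _

theorem dvd_of_le {N : ℕ → ℕ} (hdvd : ∀ l, N l ∣ N (l + 1)) {l l' : ℕ} (h : l ≤ l') :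
    N l ∣ N l' := by
  induction l', h using Nat.le_induction with
  | base => exact dvd_rfl
  | succ n _ ih => exact ih.trans (hdvd n)

theorem geom_le (M l' : ℕ) :
    ∑ l ∈ range M, (if l' < l then ((1 : ℝ) / 2) ^ (l - (l' + 1)) else 0) ≤ 2 := by
  rw [← Finset.sum_filter]
  have e : (range M).filter (fun l => l' < l) = Finset.Ico (l' + 1) M := by
    ext l
    simp only [Finset.mem_filter, Finset.mem_range, Finset.mem_Ico]
    omega
  rw [e, Finset.sum_Ico_eq_sum_range]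
  simp only [Nat.add_sub_cancel_left]
  exact sum_geometric_two_le _

theorem geom_double (M : ℕ) (deg : ℕ → ℕ) (C : ℝ) (h : ∑ l ∈ range M, (deg l : ℝ) ≤ C) :
    ∑ l ∈ range M, ∑ l' ∈ range M,
      (if l' < l then (deg l' : ℝ) * (1 / 2) ^ (l - (l' + 1)) else 0) ≤ 2 * C := by
  rw [Finset.sum_comm]
  calc ∑ l' ∈ range M, ∑ l ∈ range M,
        (if l' < l then (deg l' : ℝ) * (1 / 2) ^ (l - (l' + 1)) else 0)
      = ∑ l' ∈ range M, (deg l' : ℝ) * ∑ l ∈ range M,
        (if l' < l then ((1 : ℝ) / 2) ^ (l - (l' + 1)) else 0) := by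
        apply Finset.sum_congr rfl
        intro l' _
        rw [Finset.mul_sum]
        apply Finset.sum_congr rfl
        intro l _
        rw [mul_ite, mul_zero]
    _ ≤ ∑ l' ∈ range M, (deg l' : ℝ) * 2 :=
        Finset.sum_le_sum fun l' _ =>
          mul_le_mul_of_nonneg_left (geom_le M l') (Nat.cast_nonneg _)
    _ = 2 * ∑ l' ∈ range M, (deg l' : ℝ) := by rw [← Finset.sum_mul, mul_comm]
    _ ≤ 2 * C := by linarith

/-- **The relation argument.** -/
theorem kill (N : ℕ → ℕ) (hN : ∀ l, 0 < N l) (hdvd : ∀ l, N l ∣ N (l + 1))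
    (h2 : ∀ l, 2 * N l ≤ N (l + 1)) (d : ℕ → ℕ → ℤ) (r K g : ℕ) (hg : K * r ^ 2 < 2 ^ g)
    (a : ℕ → ℤ) (T : ℕ → Finset ℕ) (X : Set ℕ)
    (hT : ∀ i ∈ X, ∀ l, l ∈ T i ↔ d i l ≠ 0) (hTc : ∀ i ∈ X, (T i).card ≤ r)
    (ha : ∀ i ∈ X, a i = ∑ l ∈ T i, d i l) (hd1 : ∀ i ∈ X, ∀ l, (N l : ℤ) ∣ d i l)
    (hd2 : ∀ i ∈ X, ∀ l, |d i l| * 2 ^ (g + 1) ≤ r * N (l + 1))
    (A : ℕ → ℕ) (hA : ∀ i ∈ X, A i ∈ T i) (hpriv : ∀ i ∈ X, ∀ j ∈ X, i ≠ j → A i ∉ T j)
    (s : Finset ℕ) (hs : ∀ i ∈ s, i ∈ X) (ε : ℕ → ℤ) (hε : ∀ i ∈ s, |ε i| ≤ K)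
    (hsum : ∑ i ∈ s, ε i * a i = 0) : ∀ i ∈ s, ε i = 0 := by
  classical
  by_contra hcon
  push Not at hcon
  obtain ⟨i₀, hi₀, hi₀'⟩ := hcon
  set R : Finset ℕ := s.filter fun i => ε i ≠ 0 with hR
  have hRX : ∀ i ∈ R, i ∈ X := fun i hi => hs i (Finset.mem_filter.1 hi).1
  have hRε : ∀ i ∈ R, ε i ≠ 0 := fun i hi => (Finset.mem_filter.1 hi).2
  have hRK : ∀ i ∈ R, |ε i| ≤ K := fun i hi => hε i (Finset.mem_filter.1 hi).1
  have hi₀R : i₀ ∈ R := Finset.mem_filter.2 ⟨hi₀, hi₀'⟩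
  have hRpos : 0 < R.card := Finset.card_pos.2 ⟨i₀, hi₀R⟩
  have hr : 1 ≤ r := by
    have h1 := hTc i₀ (hRX _ hi₀R)
    have h2 : 0 < (T i₀).card := Finset.card_pos.2 ⟨_, hA i₀ (hRX _ hi₀R)⟩
    omega
  have hRsum : ∑ i ∈ R, ε i * a i = 0 := by
    rw [← hsum, hR, Finset.sum_filter]
    apply Finset.sum_congr rfl
    intro i _
    split_ifs with h
    · rfl
    · rw [not_not] at h
      rw [h, zero_mul]
  -- a bound for the blocks
  obtain ⟨M, hM⟩ : ∃ M, ∀ i ∈ R, ∀ l ∈ T i, l < M := by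
    refine ⟨(R.biUnion T).sup id + 1, fun i hi l hl => ?_⟩
    exact Nat.lt_succ_of_le (Finset.le_sup (f := id) (Finset.mem_biUnion.2 ⟨i, hi, hl⟩))
  set D : ℕ → ℤ := fun l => ∑ i ∈ R, ε i * d i l with hD
  have hsumT : ∀ i ∈ R, ∑ l ∈ range M, d i l = a i := by
    intro i hi
    rw [ha i (hRX i hi)]
    symm
    apply Finset.sum_subset
    · intro l hl
      exact Finset.mem_range.2 (hM i hi l hl)
    · intro l _ hl
      by_contra h
      exact hl ((hT i (hRX i hi) l).2 h)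
  have hDtot : ∑ l ∈ range M, D l = 0 := by
    rw [hD, Finset.sum_comm, ← hRsum]
    apply Finset.sum_congr rfl
    intro i hi
    rw [← Finset.mul_sum, hsumT i hi]
  have hDdvd : ∀ l, (N l : ℤ) ∣ D l := fun l =>
    Finset.dvd_sum fun i hi => (hd1 i (hRX i hi) l).mul_left _
  set P : ℕ → ℤ := fun l => ∑ l' ∈ range l, D l' with hP
  have hPdvd : ∀ l ≤ M, (N l : ℤ) ∣ P l := by
    intro l hl
    have h1 : P l = -∑ l' ∈ Finset.Ico l M, D l' := by
      rw [eq_neg_iff_add_eq_zero, ← hDtot]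
      change ∑ l' ∈ range l, D l' + ∑ l' ∈ Finset.Ico l M, D l' = ∑ l' ∈ range M, D l'
      rw [Finset.range_eq_Ico, Finset.sum_Ico_consecutive _ (Nat.zero_le _) hl,
        Finset.range_eq_Ico]
    rw [h1, dvd_neg]
    apply Finset.dvd_sum
    intro l' hl'
    have h3 : N l ∣ N l' := dvd_of_le hdvd (Finset.mem_Ico.1 hl').1
    exact (Int.natCast_dvd_natCast.2 h3).trans (hDdvd l')
  -- the private blocks are shadowed
  have hbig : ∀ i ∈ R, (N (A i) : ℤ) ≤ |P (A i)| := by
    intro i hi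
    by_contra hlt
    push Not at hlt
    have hlM : A i < M := hM i hi _ (hA i (hRX i hi))
    have hP0 : P (A i) = 0 := by
      apply Int.eq_zero_of_abs_lt_dvd (hPdvd _ hlM.le) hlt
    have hDA : D (A i) = ε i * d i (A i) := by
      rw [hD]
      apply Finset.sum_eq_single i
      · intro j hj hji
        have h1 : A i ∉ T j := hpriv i (hRX i hi) j (hRX j hj) (Ne.symm hji)
        have h2 : d j (A i) = 0 := by
          by_contra h
          exact h1 ((hT j (hRX j hj) _).2 h)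
        rw [h2, mul_zero]
      · intro h
        exact absurd hi h
    have hP1 : P (A i + 1) = D (A i) := by
      rw [hP]
      simp only
      rw [Finset.sum_range_succ]
      have : ∑ l' ∈ range (A i), D l' = P (A i) := rfl
      rw [this, hP0, zero_add]
    have h3 : (N (A i + 1) : ℤ) ∣ D (A i) := by
      rw [← hP1]
      exact hPdvd _ hlM
    have h4 : D (A i) ≠ 0 := by
      rw [hDA]
      exact mul_ne_zero (hRε i hi) ((hT i (hRX i hi) _).1 (hA i (hRX i hi)))
    apply h4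
    apply Int.eq_zero_of_abs_lt_dvd h3
    rw [hDA, abs_mul]
    have h5 := hd2 i (hRX i hi) (A i)
    have h6 := hRK i hi
    have h7 : (0 : ℤ) < N (A i + 1) := by exact_mod_cast hN _
    have h8 : |ε i| * |d i (A i)| * 2 ^ (g + 1) ≤ K * (r * N (A i + 1)) := by
      rw [mul_assoc]
      exact mul_le_mul h6 h5 (by positivity) (by positivity)
    have h9 : (K : ℤ) * r < 2 ^ (g + 1) := by
      have h10 : K * r ≤ K * r ^ 2 := Nat.mul_le_mul_left _ (by nlinarith)
      have h11 : K * r < 2 ^ (g + 1) := by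
        calc K * r ≤ K * r ^ 2 := h10
          _ < 2 ^ g := hg
          _ ≤ 2 ^ (g + 1) := Nat.pow_le_pow_right (by norm_num) (Nat.le_succ g)
      exact_mod_cast h11
    have h12 : |ε i| * |d i (A i)| * 2 ^ (g + 1) < N (A i + 1) * 2 ^ (g + 1) := by
      calc |ε i| * |d i (A i)| * 2 ^ (g + 1) ≤ K * (r * N (A i + 1)) := h8
        _ = (K * r) * N (A i + 1) := by ring
        _ < 2 ^ (g + 1) * N (A i + 1) := by
          exact mul_lt_mul_of_pos_right h9 h7
        _ = N (A i + 1) * 2 ^ (g + 1) := by ring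
    exact lt_of_mul_lt_mul_right h12 (by positivity)
  -- the upper bound
  set deg : ℕ → ℕ := fun l => (R.filter fun i => l ∈ T i).card with hdeg
  have hdegsum : ∑ l ∈ range M, (deg l : ℝ) ≤ r * R.card := by
    have h1 : ∑ l ∈ range M, deg l = ∑ i ∈ R, ((range M).filter fun l => l ∈ T i).card := by
      rw [hdeg]
      simp only [Finset.card_filter]
      exact Finset.sum_comm
    have h2 : ∑ l ∈ range M, deg l ≤ r * R.card := by
      rw [h1]
      calc ∑ i ∈ R, ((range M).filter fun l => l ∈ T i).card ≤ ∑ i ∈ R, r := by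
            apply Finset.sum_le_sum
            intro i hi
            refine (Finset.card_le_card ?_).trans (hTc i (hRX i hi))
            intro l hl
            exact (Finset.mem_filter.1 hl).2
        _ = r * R.card := by rw [Finset.sum_const, smul_eq_mul, mul_comm]
    exact_mod_cast h2
  have hDle : ∀ l, |(D l : ℝ)| * 2 ^ (g + 1) ≤ K * r * (deg l * N (l + 1)) := by
    intro l
    have h1 : |D l| * 2 ^ (g + 1) ≤ K * r * (deg l * N (l + 1)) := by
      have h2 : |D l| ≤ ∑ i ∈ R, |ε i| * |d i l| := by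
        rw [hD]
        refine (Finset.abs_sum_le_sum_abs _ _).trans (Finset.sum_le_sum fun i _ => ?_)
        rw [abs_mul]
      have h3 : ∑ i ∈ R, |ε i| * |d i l| * 2 ^ (g + 1) ≤
          ∑ i ∈ R, (if l ∈ T i then (K * (r * N (l + 1)) : ℤ) else 0) := by
        apply Finset.sum_le_sum
        intro i hi
        split_ifs with h
        · rw [mul_assoc]
          exact mul_le_mul (hRK i hi) (hd2 i (hRX i hi) l) (by positivity) (by positivity)
        · have h4 : d i l = 0 := by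
            by_contra h5
            exact h ((hT i (hRX i hi) l).2 h5)
          rw [h4, abs_zero, mul_zero, zero_mul]
      rw [← Finset.sum_filter, Finset.sum_const, nsmul_eq_mul] at h3
      calc |D l| * 2 ^ (g + 1) ≤ (∑ i ∈ R, |ε i| * |d i l|) * 2 ^ (g + 1) :=
            mul_le_mul_of_nonneg_right h2 (by positivity)
        _ = ∑ i ∈ R, |ε i| * |d i l| * 2 ^ (g + 1) := Finset.sum_mul _ _ _
        _ ≤ deg l * (K * (r * N (l + 1))) := h3
        _ = K * r * (deg l * N (l + 1)) := by ring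
    have h5 : ((|D l| * 2 ^ (g + 1) : ℤ) : ℝ) ≤ ((K * r * (deg l * N (l + 1)) : ℤ) : ℝ) := by
      exact_mod_cast h1
    push_cast at h5
    exact h5
  have hNle : ∀ l' l, l' < l → (N (l' + 1) : ℝ) ≤ N l * (1 / 2) ^ (l - (l' + 1)) := by
    intro l' l hl
    have h1 := pow_mul_le h2 (l' + 1) (l - (l' + 1))
    rw [Nat.add_sub_cancel' hl] at h1
    have h3 : ((2 : ℝ) ^ (l - (l' + 1)) * N (l' + 1)) ≤ N l := by exact_mod_cast h1
    rw [one_div, inv_pow, ← div_eq_mul_inv, le_div_iff₀ (by positivity), mul_comm]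
    exact h3
  have hPle : ∀ l ≤ M, |(P l : ℝ)| * 2 ^ (g + 1) ≤
      N l * (K * r * ∑ l' ∈ range M, (if l' < l then (deg l' : ℝ) * (1 / 2) ^ (l - (l' + 1)) else 0)) := by
    intro l hl
    have h1 : |(P l : ℝ)| ≤ ∑ l' ∈ range l, |(D l' : ℝ)| := by
      rw [hP]
      push_cast
      exact Finset.abs_sum_le_sum_abs _ _
    have h3 : ∑ l' ∈ range M, (if l' < l then (deg l' : ℝ) * (1 / 2) ^ (l - (l' + 1)) else 0) =
        ∑ l' ∈ range l, (deg l' : ℝ) * (1 / 2) ^ (l - (l' + 1)) := by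
      rw [← Finset.sum_filter]
      apply Finset.sum_congr _ fun _ _ => rfl
      ext x
      simp only [Finset.mem_filter, Finset.mem_range]
      omega
    rw [h3]
    calc |(P l : ℝ)| * 2 ^ (g + 1) ≤ (∑ l' ∈ range l, |(D l' : ℝ)|) * 2 ^ (g + 1) :=
          mul_le_mul_of_nonneg_right h1 (by positivity)
      _ = ∑ l' ∈ range l, |(D l' : ℝ)| * 2 ^ (g + 1) := Finset.sum_mul _ _ _
      _ ≤ ∑ l' ∈ range l, N l * (K * r * ((deg l' : ℝ) * (1 / 2) ^ (l - (l' + 1)))) := by
          apply Finset.sum_le_sum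
          intro l' hl'
          refine (hDle l').trans ?_
          have h4 := hNle l' l (Finset.mem_range.1 hl')
          calc (K : ℝ) * r * (deg l' * N (l' + 1)) ≤
              K * r * (deg l' * (N l * (1 / 2) ^ (l - (l' + 1)))) := by gcongr
            _ = N l * (K * r * ((deg l' : ℝ) * (1 / 2) ^ (l - (l' + 1)))) := by ring
      _ = N l * (K * r * ∑ l' ∈ range l, (deg l' : ℝ) * (1 / 2) ^ (l - (l' + 1))) := by
          rw [Finset.mul_sum, Finset.mul_sum]
  -- the function `F l`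
  set F : ℕ → ℝ := fun l =>
    ∑ l' ∈ range M, (if l' < l then (deg l' : ℝ) * (1 / 2) ^ (l - (l' + 1)) else 0) with hF
  have hF0 : ∀ l, 0 ≤ F l := fun l => Finset.sum_nonneg fun l' _ => by
    split_ifs
    · positivity
    · exact le_rfl
  have hone : ∀ i ∈ R, (2 : ℝ) ^ (g + 1) ≤ K * r * F (A i) := by
    intro i hi
    have h1 : (N (A i) : ℝ) ≤ |(P (A i) : ℝ)| := by exact_mod_cast hbig i hi
    have h3 := hPle (A i) (hM i hi _ (hA i (hRX i hi))).le
    have h4 : (0 : ℝ) < N (A i) := by exact_mod_cast hN _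
    have h5 : (N (A i) : ℝ) * 2 ^ (g + 1) ≤ N (A i) * (K * r * F (A i)) :=
      (mul_le_mul_of_nonneg_right h1 (by positivity)).trans h3
    exact le_of_mul_le_mul_left h5 h4
  have hFsum : ∑ l ∈ range M, F l ≤ 2 * (r * R.card) := geom_double M deg _ hdegsum
  clear_value F
  have hinj : Set.InjOn A (R : Set ℕ) := by
    intro i hi j hj hij
    by_contra hne
    exact hpriv i (hRX i hi) j (hRX j hj) hne (hij ▸ hA j (hRX j hj))
  have htot : (R.card : ℝ) * 2 ^ (g + 1) ≤ K * r * (2 * (r * R.card)) := by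
    calc (R.card : ℝ) * 2 ^ (g + 1) = ∑ i ∈ R, (2 : ℝ) ^ (g + 1) := by
          rw [Finset.sum_const, nsmul_eq_mul]
      _ ≤ ∑ i ∈ R, K * r * F (A i) := Finset.sum_le_sum hone
      _ = ∑ l ∈ R.image A, K * r * F l :=
          (Finset.sum_image (f := fun l => (K : ℝ) * r * F l) hinj).symm
      _ ≤ ∑ l ∈ range M, K * r * F l := by
          apply Finset.sum_le_sum_of_subset_of_nonneg
          · intro l hl
            obtain ⟨i, hi, rfl⟩ := Finset.mem_image.1 hl
            exact Finset.mem_range.2 (hM i hi _ (hA i (hRX i hi)))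
          · intro l _ _
            exact mul_nonneg (mul_nonneg (Nat.cast_nonneg _) (Nat.cast_nonneg _)) (hF0 l)
      _ = K * r * ∑ l ∈ range M, F l := by rw [Finset.mul_sum]
      _ ≤ K * r * (2 * (r * R.card)) :=
          mul_le_mul_of_nonneg_left hFsum (mul_nonneg (Nat.cast_nonneg _) (Nat.cast_nonneg _))
  have hfin : (K : ℝ) * r ^ 2 < 2 ^ g := by exact_mod_cast hg
  have hRr : (0 : ℝ) < R.card := by exact_mod_cast hRpos
  have : (R.card : ℝ) * 2 ^ (g + 1) < R.card * 2 ^ (g + 1) := by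
    calc (R.card : ℝ) * 2 ^ (g + 1) ≤ K * r * (2 * (r * R.card)) := htot
      _ = 2 * R.card * (K * r ^ 2) := by ring
      _ < 2 * R.card * 2 ^ g := by
          apply mul_lt_mul_of_pos_left hfin
          positivity
      _ = R.card * 2 ^ (g + 1) := by ring
  exact lt_irrefl _ this

end Pool.Agent.H5.WI
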