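import Pool.Agent.H5.WI.Blk
import Pool.Agent.H5.WI.Kill
import Pool.Agent.H5.WI.Col

set_option autoImplicit false

/-!
# Assembly: sequences with boundedly many digits
-/

namespace Pool.Agent.H5.WI

open Finset

/-- a free arc -/
theorem exists_arc {r g : ℕ} (hg : 1 ≤ g) (S : Finset ℕ) (hS : S.card ≤ r) :
    ∃ j : Fin (r + 1), ∀ p ∈ S,
      (p + ((r + 1) * g - (j + 1) * g)) % ((r + 1) * g) + g < (r + 1) * g := by
  set L := (r + 1) * g with hL
  have hLpos : 0 < L := by positivity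
  -- the arcs met by `S`
  have hlt : ∀ p, (p % L) / g < r + 1 := fun p => by
    rw [Nat.div_lt_iff_lt_mul (by omega)]
    exact Nat.mod_lt p hLpos
  let φ : ℕ → Fin (r + 1) := fun p => ⟨(p % L) / g, hlt p⟩
  obtain ⟨j, hj⟩ : ∃ j : Fin (r + 1), j ∉ S.image φ := by
    by_contra hcon
    push Not at hcon
    have h1 : (Finset.univ : Finset (Fin (r + 1))).card ≤ (S.image φ).card :=
      Finset.card_le_card fun j _ => hcon j
    rw [Finset.card_univ, Fintype.card_fin] at h1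
    have h2 := Finset.card_image_le (s := S) (f := φ)
    omega
  refine ⟨j, fun p hp => ?_⟩
  have hne : (p % L) / g ≠ j := by
    intro h
    exact hj (Finset.mem_image.2 ⟨p, hp, Fin.ext h⟩)
  have hjr : (j : ℕ) + 1 ≤ r + 1 := j.2
  have hjL : ((j : ℕ) + 1) * g ≤ L := Nat.mul_le_mul_right _ hjr
  have hjg : ((j : ℕ) + 1) * g = j * g + g := by ring
  have e1 : (p + (L - (j + 1) * g)) % L = (p % L + (L - (j + 1) * g)) % L := by
    rw [Nat.mod_add_mod]
  rw [e1]
  have hρ := Nat.mod_lt p hLpos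
  set ρ := p % L with hρdef
  rcases lt_or_ge ρ ((j + 1) * g) with h | h
  · -- below the arc
    have h1 : ρ / g < j + 1 := by
      rw [Nat.div_lt_iff_lt_mul (by omega)]
      exact h
    have h2 : ρ / g < j := by omega
    have h3 : ρ < j * g := by
      rwa [Nat.div_lt_iff_lt_mul (by omega)] at h2
    rw [Nat.mod_eq_of_lt (by omega)]
    omega
  · have h4 : ρ + (L - (j + 1) * g) = (ρ - (j + 1) * g) + L := by omega
    rw [h4, Nat.add_mod_right, Nat.mod_eq_of_lt (by omega)]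
    omega

/-- the number of classes -/
def mm (r g : ℕ) : ℕ := (r + 1) * ((10 * r * ((r + 1) * g)) * (2 * r + 1))

section
variable {lam : ℕ → ℕ} (h0 : 1 ≤ lam 0) (hlt : ∀ k, lam k < lam (k + 1))
  (hdv : ∀ k, lam k ∣ lam (k + 1)) {r K g : ℕ} (hr : 1 ≤ r) (hg1 : 1 ≤ g)
  (hg : K * r ^ 2 < 2 ^ g) {a : ℕ → ℤ} (ha0 : ∀ i, a i ≠ 0)
  (hw : ∀ s : Finset ℕ, ∀ ε : ℕ → ℤ, (∀ i ∈ s, |ε i| ≤ 1) →
    ∑ i ∈ s, ε i * a i = 0 → ∀ i ∈ s, ε i = 0)
  (c : ℕ → ℕ →₀ ℤ) (hc : ∀ i, ∑ p ∈ (c i).support, (c i p).natAbs ≤ r)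
  (ha : ∀ i, a i = ∑ p ∈ (c i).support, c i p * lam p)

include h0 hlt hdv hr hg1 hg ha0 hw hc ha

/-- one class of offsets -/
theorem one_class {L s : ℕ} (hs : s < L) (X : Set ℕ)
    (hX : ∀ i ∈ X, ∀ p ∈ (c i).support, (p + s) % L + g < L) :
    ∃ f : ℕ → Fin (10 * r * L) × Fin (2 * r + 1), ∀ j, ∀ t : Finset ℕ,
      (∀ i ∈ t, i ∈ X ∧ f i = j) → ∀ ε : ℕ → ℤ, (∀ i ∈ t, |ε i| ≤ K) →
      ∑ i ∈ t, ε i * a i = 0 → ∀ i ∈ t, ε i = 0 := by
  classical
  have hL : 0 < L := by omega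
  set T := TT lam L s c with hT
  -- Hall
  let t : X → Finset (ℕ × Fin (10 * r * L)) := fun i => T i ×ˢ Finset.univ
  have hall : ∀ u : Finset X, u.card ≤ (u.biUnion t).card := by
    intro u
    have h1 := card_le_TT (lam := lam) (L := L) (s := s) hL hr hc ha hw (u.map (Function.Embedding.subtype _))
    rw [Finset.card_map] at h1
    have h2 : u.biUnion t = ((u.map (Function.Embedding.subtype _)).biUnion T) ×ˢ
        (Finset.univ : Finset (Fin (10 * r * L))) := by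
      ext ⟨x, y⟩
      simp only [t, Finset.mem_biUnion, Finset.mem_product, Finset.mem_univ, and_true,
        Finset.mem_map, Function.Embedding.subtype_apply]
      constructor
      · rintro ⟨i, hi, hx⟩
        exact ⟨i, ⟨i, hi, rfl⟩, hx⟩
      · rintro ⟨_, ⟨i, hi, rfl⟩, hx⟩
        exact ⟨i, hi, hx⟩
    rw [h2, Finset.card_product, Finset.card_univ, Fintype.card_fin, mul_comm]
    exact h1
  obtain ⟨F, hFinj, hFmem⟩ := (Finset.all_card_le_biUnion_card_iff_exists_injective t).1 hall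
  have hM : 0 < 10 * r * L := by positivity
  let A : ℕ → ℕ := fun i => if h : i ∈ X then (F ⟨i, h⟩).1 else 0
  let c2 : ℕ → Fin (10 * r * L) := fun i => if h : i ∈ X then (F ⟨i, h⟩).2 else ⟨0, hM⟩
  have hA : ∀ i ∈ X, A i ∈ T i := by
    intro i hi
    have h1 := hFmem ⟨i, hi⟩
    simp only [t, Finset.mem_product] at h1
    simp only [A, dif_pos hi]
    exact h1.1
  have hAinj : ∀ i ∈ X, ∀ j ∈ X, c2 i = c2 j → A i = A j → i = j := by
    intro i hi j hj h1 h2
    simp only [A, c2, dif_pos hi, dif_pos hj] at h1 h2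
    have h3 : F ⟨i, hi⟩ = F ⟨j, hj⟩ := Prod.ext h2 h1
    exact congrArg Subtype.val (hFinj h3)
  -- the digraph
  have hOfin : ∀ x, {y | y ∈ X ∧ c2 y = c2 x ∧ A y ∈ T x}.Finite := by
    intro x
    apply Set.Finite.of_finite_image (f := A)
    · apply (T x).finite_toSet.subset
      rintro _ ⟨y, hy, rfl⟩
      exact hy.2.2
    · intro y hy z hz hyz
      exact hAinj y hy.1 z hz.1 (hy.2.1.trans hz.2.1.symm) hyz
  let out : ℕ → Finset ℕ := fun x => (hOfin x).toFinset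
  have hout : ∀ x, (out x).card ≤ r := by
    intro x
    refine le_trans ?_ (card_TT (lam := lam) (L := L) (s := s) (hc x))
    apply Finset.card_le_card_of_injOn A
    · intro y hy
      exact ((hOfin x).mem_toFinset.1 hy).2.2
    · intro y hy z hz hyz
      have h1 := (hOfin x).mem_toFinset.1 hy
      have h2 := (hOfin x).mem_toFinset.1 hz
      exact hAinj y h1.1 z h2.1 (h1.2.1.trans h2.2.1.symm) hyz
  obtain ⟨c3, hc3⟩ := col_out r out hout
  refine ⟨fun i => (c2 i, c3 i), ?_⟩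
  rintro ⟨j2, j3⟩ u hu ε hε hsum
  refine kill (NN lam L s) (NN_pos h0 hlt L s) (NN_dvd hdv L s) (NN_two h0 hlt hdv hs)
    (dd lam L s c) r K g hg a T {i | i ∈ X ∧ c2 i = j2 ∧ c3 i = j3} ?_ ?_ ?_ ?_ ?_ A ?_ ?_ u ?_ ε hε
    hsum
  · intro i _ l
    exact mem_TT lam L s c i l
  · intro i _
    exact card_TT (hc i)
  · intro i _
    rw [ha i, hT, sum_TT]
  · intro i hi l
    exact dvd_dd hdv (hX i hi.1) l
  · intro i hi l
    exact dd_le h0 hlt hdv (hX i hi.1) (hc i) l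
  · intro i hi
    exact hA i hi.1
  · intro i hi j hj hij hmem
    apply hc3 j i _ hij
    · rw [hi.2.2, hj.2.2]
    · exact (hOfin j).mem_toFinset.2 ⟨hi.1, hi.2.1.trans hj.2.1.symm, hmem⟩
  · intro i hi
    obtain ⟨h1, h2⟩ := hu i hi
    exact ⟨h1, congrArg Prod.fst h2, congrArg Prod.snd h2⟩

/-- all classes together -/
theorem main_digits : ∃ f : ℕ → Fin (mm r g), ∀ j, ∀ t : Finset ℕ, (∀ i ∈ t, f i = j) →
    ∀ ε : ℕ → ℤ, (∀ i ∈ t, |ε i| ≤ K) → ∑ i ∈ t, ε i * a i = 0 → ∀ i ∈ t, ε i = 0 := by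
  classical
  choose J hJ using fun i => exists_arc (r := r) hg1 (c i).support (card_supp (hc i))
  have hs : ∀ j : Fin (r + 1), (r + 1) * g - (j + 1) * g < (r + 1) * g := by
    intro j
    have h1 : 0 < (r + 1) * g := by positivity
    have h2 : 0 < ((j : ℕ) + 1) * g := by positivity
    omega
  choose f hf using fun j : Fin (r + 1) => one_class h0 hlt hdv hr hg1 hg ha0 hw c hc ha (hs j)
    {i | J i = j} (by
      intro i hi p hp
      have h1 := hJ i p hp
      rw [Set.mem_setOf_eq] at hi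
      rw [hi] at h1
      exact h1)
  let e : Fin (r + 1) × (Fin (10 * r * ((r + 1) * g)) × Fin (2 * r + 1)) ≃ Fin (mm r g) :=
    ((Equiv.refl _).prodCongr finProdFinEquiv).trans finProdFinEquiv
  refine ⟨fun i => e (J i, f (J i) i), ?_⟩
  intro j t ht ε hε hsum
  obtain ⟨⟨j1, j2⟩, rfl⟩ := e.surjective j
  have h1 : ∀ i ∈ t, J i = j1 ∧ f (J i) i = j2 := by
    intro i hi
    have h2 := e.injective (ht i hi)
    exact ⟨congrArg Prod.fst h2, congrArg Prod.snd h2⟩
  exact hf j1 j2 t (fun i hi => ⟨(h1 i hi).1, by rw [← (h1 i hi).1]; exact (h1 i hi).2⟩) ε hε hsum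

end

end Pool.Agent.H5.WI
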