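import Pool.Agent.H5.WI.Count

set_option autoImplicit false

/-!
# Blocks of digits
-/

namespace Pool.Agent.H5.WI

open Finset

/-- weak independence as a property of subset sums -/
theorem weak_inj {a : ℕ → ℤ}
    (hw : ∀ s : Finset ℕ, ∀ ε : ℕ → ℤ, (∀ i ∈ s, |ε i| ≤ 1) →
      ∑ i ∈ s, ε i * a i = 0 → ∀ i ∈ s, ε i = 0)
    (A B : Finset ℕ) (h : ∑ i ∈ A, a i = ∑ i ∈ B, a i) : A = B := by
  classical
  have h1 := hw (A ∪ B) (fun i => (if i ∈ A then 1 else 0) - (if i ∈ B then 1 else 0)) (by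
    intro i _
    split_ifs <;> simp) (by
    simp only [sub_mul, ite_mul, one_mul, zero_mul, Finset.sum_sub_distrib, Finset.sum_ite_mem]
    rw [Finset.union_inter_cancel_left, Finset.inter_comm, Finset.inter_union_distrib_left,
      Finset.inter_self, Finset.union_eq_right.2 Finset.inter_subset_left, h, sub_self])
  ext i
  constructor
  · intro hi
    by_contra hB
    have := h1 i (Finset.mem_union_left _ hi)
    simp [hi, hB] at this
  · intro hi
    by_contra hA
    have := h1 i (Finset.mem_union_right _ hi)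
    simp [hi, hA] at this

section chain
variable {lam : ℕ → ℕ}

theorem lam_pos (h0 : 1 ≤ lam 0) (hlt : ∀ k, lam k < lam (k + 1)) (k : ℕ) : 0 < lam k := by
  induction k with
  | zero => exact h0
  | succ k ih => exact ih.trans (hlt k)

theorem lam_two (h0 : 1 ≤ lam 0) (hlt : ∀ k, lam k < lam (k + 1))
    (hdv : ∀ k, lam k ∣ lam (k + 1)) (k : ℕ) : 2 * lam k ≤ lam (k + 1) := by
  obtain ⟨c, hc⟩ := hdv k
  have h1 := lam_pos h0 hlt k
  have h2 := hlt k
  rw [hc] at h2 ⊢
  have h3 : 2 ≤ c := by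
    by_contra h
    have : c = 0 ∨ c = 1 := by omega
    rcases this with rfl | rfl <;> omega
  nlinarith

theorem lam_pow (h0 : 1 ≤ lam 0) (hlt : ∀ k, lam k < lam (k + 1))
    (hdv : ∀ k, lam k ∣ lam (k + 1)) (p k : ℕ) : lam p * 2 ^ k ≤ lam (p + k) := by
  induction k with
  | zero => simp
  | succ k ih =>
    calc lam p * 2 ^ (k + 1) = 2 * (lam p * 2 ^ k) := by ring
      _ ≤ 2 * lam (p + k) := Nat.mul_le_mul_left _ ih
      _ ≤ lam (p + k + 1) := lam_two h0 hlt hdv _

theorem lam_mono (hlt : ∀ k, lam k < lam (k + 1)) : Monotone lam :=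
  monotone_nat_of_le_succ fun k => (hlt k).le

theorem lam_dvd (hdv : ∀ k, lam k ∣ lam (k + 1)) {p q : ℕ} (h : p ≤ q) : lam p ∣ lam q := by
  induction q, h using Nat.le_induction with
  | base => exact dvd_rfl
  | succ n _ ih => exact ih.trans (hdv n)

/-- the scales of the blocks -/
def NN (lam : ℕ → ℕ) (L s l : ℕ) : ℕ := lam (l * L - s)

theorem NN_pos (h0 : 1 ≤ lam 0) (hlt : ∀ k, lam k < lam (k + 1)) (L s l : ℕ) :
    0 < NN lam L s l := lam_pos h0 hlt _

theorem NN_dvd (hdv : ∀ k, lam k ∣ lam (k + 1)) (L s l : ℕ) :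
    NN lam L s l ∣ NN lam L s (l + 1) := by
  apply lam_dvd hdv
  have : (l + 1) * L = l * L + L := by ring
  omega

theorem NN_two (h0 : 1 ≤ lam 0) (hlt : ∀ k, lam k < lam (k + 1))
    (hdv : ∀ k, lam k ∣ lam (k + 1)) {L s : ℕ} (hs : s < L) (l : ℕ) :
    2 * NN lam L s l ≤ NN lam L s (l + 1) := by
  have h1 : l * L - s + 1 ≤ (l + 1) * L - s := by
    have : (l + 1) * L = l * L + L := by ring
    omega
  exact (lam_two h0 hlt hdv _).trans (lam_mono hlt h1)

theorem blk_le {L s p l g : ℕ} (hl : (p + s) / L = l) (hp : (p + s) % L + g < L) :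
    l * L - s ≤ p ∧ p + (g + 1) ≤ (l + 1) * L - s := by
  have h1 := Nat.div_add_mod (p + s) L
  rw [hl] at h1
  have h2 : (l + 1) * L = l * L + L := by ring
  have h3 : L * l = l * L := mul_comm _ _
  omega

end chain

section digits
variable (lam : ℕ → ℕ) (L s : ℕ) (c : ℕ → ℕ →₀ ℤ)

/-- the digit of the `i`-th term in block `l` -/
noncomputable def dd (i l : ℕ) : ℤ :=
  ∑ p ∈ (c i).support.filter (fun p => (p + s) / L = l), c i p * lam p

/-- the blocks with nonzero digit -/
noncomputable def TT (i : ℕ) : Finset ℕ :=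
  ((c i).support.image fun p => (p + s) / L).filter fun l => dd lam L s c i l ≠ 0

theorem mem_TT (i l : ℕ) : l ∈ TT lam L s c i ↔ dd lam L s c i l ≠ 0 := by
  rw [TT, Finset.mem_filter]
  constructor
  · exact fun h => h.2
  · intro h
    refine ⟨?_, h⟩
    by_contra hcon
    apply h
    rw [dd, Finset.filter_eq_empty_iff.2, Finset.sum_empty]
    intro p hp he
    exact hcon (Finset.mem_image.2 ⟨p, hp, he⟩)

variable {lam L s c}

theorem card_supp {r i : ℕ} (hc : ∑ p ∈ (c i).support, (c i p).natAbs ≤ r) :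
    (c i).support.card ≤ r := by
  refine le_trans ?_ hc
  rw [Finset.card_eq_sum_ones]
  apply Finset.sum_le_sum
  intro p hp
  have := Finsupp.mem_support_iff.1 hp
  omega

theorem card_TT {r i : ℕ} (hc : ∑ p ∈ (c i).support, (c i p).natAbs ≤ r) :
    (TT lam L s c i).card ≤ r :=
  (Finset.card_filter_le _ _).trans (Finset.card_image_le.trans (card_supp hc))

theorem sum_TT (i : ℕ) : ∑ l ∈ TT lam L s c i, dd lam L s c i l =
    ∑ p ∈ (c i).support, c i p * lam p := by
  rw [TT, Finset.sum_filter_ne_zero]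
  exact Finset.sum_fiberwise_of_maps_to
    (fun p hp => Finset.mem_image_of_mem (fun p => (p + s) / L) hp) _

theorem dvd_dd (hdv : ∀ k, lam k ∣ lam (k + 1)) {g i : ℕ}
    (hi : ∀ p ∈ (c i).support, (p + s) % L + g < L) (l : ℕ) :
    (NN lam L s l : ℤ) ∣ dd lam L s c i l := by
  apply Finset.dvd_sum
  intro p hp
  rw [Finset.mem_filter] at hp
  have h1 := (blk_le hp.2 (hi p hp.1)).1
  exact (Int.natCast_dvd_natCast.2 (lam_dvd hdv h1)).mul_left _

theorem dd_le (h0 : 1 ≤ lam 0) (hlt : ∀ k, lam k < lam (k + 1))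
    (hdv : ∀ k, lam k ∣ lam (k + 1)) {g i r : ℕ}
    (hi : ∀ p ∈ (c i).support, (p + s) % L + g < L)
    (hc : ∑ p ∈ (c i).support, (c i p).natAbs ≤ r) (l : ℕ) :
    |dd lam L s c i l| * 2 ^ (g + 1) ≤ r * NN lam L s (l + 1) := by
  have h1 : |dd lam L s c i l| * 2 ^ (g + 1) ≤
      ∑ p ∈ (c i).support.filter (fun p => (p + s) / L = l),
        ((c i p).natAbs : ℤ) * NN lam L s (l + 1) := by
    rw [dd]
    refine (mul_le_mul_of_nonneg_right (Finset.abs_sum_le_sum_abs _ _) (by positivity)).trans ?_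
    rw [Finset.sum_mul]
    apply Finset.sum_le_sum
    intro p hp
    rw [Finset.mem_filter] at hp
    have h2 := (blk_le hp.2 (hi p hp.1)).2
    have h3 : lam p * 2 ^ (g + 1) ≤ NN lam L s (l + 1) :=
      (lam_pow h0 hlt hdv p (g + 1)).trans (lam_mono hlt h2)
    have h4 : ((lam p : ℤ)) * 2 ^ (g + 1) ≤ NN lam L s (l + 1) := by exact_mod_cast h3
    rw [abs_mul, Int.natCast_natAbs, mul_assoc, abs_of_nonneg (Int.natCast_nonneg (lam p))]
    exact mul_le_mul_of_nonneg_left h4 (abs_nonneg _)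
  refine h1.trans ?_
  rw [← Finset.sum_mul]
  apply mul_le_mul_of_nonneg_right _ (Int.natCast_nonneg _)
  have h5 : ∑ p ∈ (c i).support.filter (fun p => (p + s) / L = l), (c i p).natAbs ≤ r :=
    (Finset.sum_le_sum_of_subset (Finset.filter_subset _ _)).trans hc
  exact_mod_cast h5

/-- the counting inequality for blocks -/
theorem card_le_TT (hL : 0 < L) {r : ℕ} (hr : 1 ≤ r)
    (hc : ∀ i, ∑ p ∈ (c i).support, (c i p).natAbs ≤ r) {a : ℕ → ℤ}
    (ha : ∀ i, a i = ∑ p ∈ (c i).support, c i p * lam p)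
    (hw : ∀ s : Finset ℕ, ∀ ε : ℕ → ℤ, (∀ i ∈ s, |ε i| ≤ 1) →
      ∑ i ∈ s, ε i * a i = 0 → ∀ i ∈ s, ε i = 0) (U : Finset ℕ) :
    U.card ≤ 10 * r * L * (U.biUnion (TT lam L s c)).card := by
  classical
  set V := U.biUnion (TT lam L s c) with hV
  set P : Finset ℕ := V.biUnion fun l => Finset.Ico (l * L - s) ((l + 1) * L - s) with hP
  have hPc : P.card ≤ V.card * L := by
    apply Finset.card_biUnion_le_card_mul
    intro l _
    rw [Nat.card_Ico]
    have : (l + 1) * L = l * L + L := by ring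
    omega
  let c' : ℕ → ℕ → ℤ := fun i p => if (p + s) / L ∈ TT lam L s c i then c i p else 0
  have hmemP : ∀ i ∈ U, ∀ p, (p + s) / L ∈ TT lam L s c i → p ∈ P := by
    intro i hi p hp
    rw [hP, Finset.mem_biUnion]
    refine ⟨(p + s) / L, Finset.mem_biUnion.2 ⟨i, hi, hp⟩, ?_⟩
    rw [Finset.mem_Ico]
    have h1 := Nat.div_add_mod (p + s) L
    have h2 := Nat.mod_lt (p + s) hL
    set l := (p + s) / L
    have h3 : (l + 1) * L = l * L + L := by ring
    have h4 : L * l = l * L := mul_comm _ _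
    omega
  have ha' : ∀ i ∈ U, a i = ∑ p ∈ P, c' i p * lam p := by
    intro i hi
    rw [ha i, ← sum_TT (L := L) (s := s)]
    simp only [dd]
    have e1 : ∀ l ∈ TT lam L s c i,
        ∑ p ∈ (c i).support.filter (fun p => (p + s) / L = l), c i p * (lam p : ℤ) =
        ∑ p ∈ P.filter (fun p => (p + s) / L = l), c' i p * (lam p : ℤ) := by
      intro l hl
      have e2 : ∑ p ∈ P.filter (fun p => (p + s) / L = l), c' i p * (lam p : ℤ) =
          ∑ p ∈ P.filter (fun p => (p + s) / L = l), c i p * (lam p : ℤ) := by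
        apply Finset.sum_congr rfl
        intro p hp
        have h1 := (Finset.mem_filter.1 hp).2
        simp only [c']
        rw [h1, if_pos hl]
      rw [e2]
      apply Finset.sum_subset
      · intro p hp
        rw [Finset.mem_filter] at hp ⊢
        exact ⟨hmemP i hi p (hp.2 ▸ hl), hp.2⟩
      · intro p hp hp'
        have h1 : p ∉ (c i).support := by
          intro h
          exact hp' (Finset.mem_filter.2 ⟨h, (Finset.mem_filter.1 hp).2⟩)
        rw [Finsupp.notMem_support_iff.1 h1, zero_mul]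
    rw [Finset.sum_congr rfl e1]
    have e3 : ∑ p ∈ P, c' i p * (lam p : ℤ) =
        ∑ p ∈ P.filter (fun p => (p + s) / L ∈ TT lam L s c i), c' i p * (lam p : ℤ) := by
      rw [Finset.sum_filter]
      apply Finset.sum_congr rfl
      intro p _
      split_ifs with h
      · rfl
      · simp only [c']
        rw [if_neg h, zero_mul]
    rw [e3, ← Finset.sum_fiberwise_of_maps_to (g := fun p => (p + s) / L)
      (t := TT lam L s c i) (fun p hp => (Finset.mem_filter.1 hp).2)]
    apply Finset.sum_congr rfl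
    intro l hl
    apply Finset.sum_congr _ fun _ _ => rfl
    ext p
    simp only [Finset.mem_filter]
    constructor
    · rintro ⟨h1, h2⟩
      exact ⟨⟨h1, h2 ▸ hl⟩, h2⟩
    · rintro ⟨⟨h1, _⟩, h2⟩
      exact ⟨h1, h2⟩
  have h1 := card_le_of_inj U P c' r hr (by
    intro i _
    calc ∑ p ∈ P, (c' i p).natAbs ≤ ∑ p ∈ P, (c i p).natAbs := by
          apply Finset.sum_le_sum
          intro p _
          simp only [c']
          split_ifs
          · exact le_rfl
          · simp
      _ ≤ ∑ p ∈ (c i).support, (c i p).natAbs := by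
          rw [← Finset.sum_filter_ne_zero]
          apply Finset.sum_le_sum_of_subset
          intro p hp
          have h2 := (Finset.mem_filter.1 hp).2
          rw [Finsupp.mem_support_iff]
          intro h3
          rw [h3] at h2
          exact h2 rfl
      _ ≤ r := hc i) (by
    intro A hA B hB hAB
    apply weak_inj hw
    calc ∑ i ∈ A, a i = ∑ i ∈ A, ∑ p ∈ P, c' i p * (lam p : ℤ) :=
          Finset.sum_congr rfl fun i hi => ha' i (hA hi)
      _ = ∑ p ∈ P, (∑ i ∈ A, c' i p) * (lam p : ℤ) := by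
          rw [Finset.sum_comm]
          exact Finset.sum_congr rfl fun p _ => (Finset.sum_mul _ _ _).symm
      _ = ∑ p ∈ P, (∑ i ∈ B, c' i p) * (lam p : ℤ) :=
          Finset.sum_congr rfl fun p hp => by rw [hAB p hp]
      _ = ∑ i ∈ B, ∑ p ∈ P, c' i p * (lam p : ℤ) := by
          rw [Finset.sum_comm]
          exact Finset.sum_congr rfl fun p _ => Finset.sum_mul _ _ _
      _ = ∑ i ∈ B, a i := (Finset.sum_congr rfl fun i hi => ha' i (hB hi)).symm)
  calc U.card ≤ 10 * r * P.card := h1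
    _ ≤ 10 * r * (V.card * L) := Nat.mul_le_mul_left _ hPc
    _ = 10 * r * L * V.card := by ring

end digits

end Pool.Agent.H5.WI
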