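import Pool.Agent.H5.WI.Var
import Pool.Agent.H5.WI.Blk

set_option autoImplicit false

/-!
# Dense weakly independent sequences have bounded clusters
-/

namespace Pool.Agent.H5.WI

open Finset

section
variable {a : ℕ → ℕ} (ha : ∀ i, 0 < a i)
  (hw : ∀ s : Finset ℕ, ∀ ε : ℕ → ℤ, (∀ i ∈ s, |ε i| ≤ 1) →
    ∑ i ∈ s, ε i * (a i : ℤ) = 0 → ∀ i ∈ s, ε i = 0)

include hw in
theorem a_inj : Function.Injective a := by
  intro i j hij
  have h := weak_inj (a := fun i => (a i : ℤ)) hw {i} {j} (by simp [hij])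
  exact Finset.singleton_injective h

include hw in
theorem finite_le (x : ℕ) : {i | a i ≤ x}.Finite := by
  apply Set.Finite.of_finite_image (f := a)
  · exact (Set.finite_Iic x).subset (by rintro _ ⟨i, hi, rfl⟩; exact hi)
  · exact (a_inj hw).injOn

include hw in
/-- the terms in a dyadic interval -/
theorem cluster (C : ℕ) (hA : ∀ x : ℕ, 1 ≤ x → Real.logb 2 x ≤ ({i | a i ≤ x}.ncard : ℝ) + C)
    (j : ℕ) (S : Finset ℕ) (hS : ∀ i ∈ S, 2 ^ j ≤ a i ∧ a i < 2 ^ (j + 1)) :
    S.card < 2 * C + 10 := by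
  classical
  have hinj := a_inj hw
  rcases Finset.eq_empty_or_nonempty S with rfl | hSne
  · simp
  -- the smaller terms
  set Lo : Finset ℕ := (finite_le hw (2 ^ j - 1)).toFinset with hLo
  have hLomem : ∀ i, i ∈ Lo ↔ a i < 2 ^ j := by
    intro i
    rw [hLo, Set.Finite.mem_toFinset, Set.mem_setOf_eq]
    have : 0 < 2 ^ j := by positivity
    omega
  set k := Lo.card with hk
  have hdisj : Disjoint Lo S := by
    rw [Finset.disjoint_left]
    intro i hi hi'
    have := (hLomem i).1 hi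
    have := (hS i hi').1
    omega
  -- the power `2^j` is not much larger than `2^k`
  have hlog : ∀ x : ℕ, ∀ U : Finset ℕ, (∀ i, a i < x → i ∈ U) → x ≤ 2 ^ (U.card + C) + 1 := by
    intro x U hU
    rcases Nat.lt_or_ge x 2 with h | h
    · have : 0 < 2 ^ (U.card + C) := by positivity
      omega
    · have h1 := hA (x - 1) (by omega)
      have h2 : {i | a i ≤ x - 1}.ncard ≤ U.card := by
        rw [← Set.ncard_coe_finset]
        apply Set.ncard_le_ncard _ U.finite_toSet
        intro i hi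
        rw [Set.mem_setOf_eq] at hi
        exact hU i (by omega)
      have h3 : Real.logb 2 ((x - 1 : ℕ) : ℝ) ≤ ((U.card + C : ℕ) : ℝ) := by
        refine h1.trans ?_
        push_cast
        have : (({i | a i ≤ x - 1}.ncard : ℕ) : ℝ) ≤ (U.card : ℝ) := by exact_mod_cast h2
        linarith
      rw [Real.logb_le_iff_le_rpow (by norm_num) (by
        have : 0 < x - 1 := by omega
        exact_mod_cast this), Real.rpow_natCast] at h3
      have h4 : x - 1 ≤ 2 ^ (U.card + C) := by exact_mod_cast h3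
      omega
  have hj : 2 ^ j ≤ 2 ^ (k + C + 1) := by
    have h1 := hlog (2 ^ j) Lo (fun i hi => (hLomem i).2 hi)
    rw [← hk] at h1
    have h2 : 1 ≤ 2 ^ (k + C) := Nat.one_le_two_pow
    have h3 : 2 ^ (k + C + 1) = 2 ^ (k + C) + 2 ^ (k + C) := by ring
    omega
  -- the squares of the smaller terms
  have hLosum : ∑ i ∈ Lo, (a i : ℤ) ^ 2 ≤ 4 ^ (k + C + 1) := by
    -- rank
    let rk : ℕ → ℕ := fun i => (Lo.filter fun i' => a i' < a i).card
    have hrk : ∀ i ∈ Lo, rk i < k := by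
      intro i hi
      apply Finset.card_lt_card
      refine ⟨Finset.filter_subset _ _, fun h => ?_⟩
      have := (Finset.mem_filter.1 (h hi)).2
      exact lt_irrefl _ this
    have hrkinj : Set.InjOn rk (Lo : Set ℕ) := by
      intro i hi i' hi' h
      rcases lt_trichotomy (a i) (a i') with h1 | h1 | h1
      · exfalso
        have h2 : rk i < rk i' := by
          apply Finset.card_lt_card
          refine ⟨fun x hx => ?_, fun hsub => ?_⟩
          · rw [Finset.mem_filter] at hx ⊢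
            exact ⟨hx.1, hx.2.trans h1⟩
          · have h3 : i ∈ Lo.filter fun x => a x < a i' := Finset.mem_filter.2 ⟨hi, h1⟩
            have := (Finset.mem_filter.1 (hsub h3)).2
            exact lt_irrefl _ this
        omega
      · exact hinj h1
      · exfalso
        have h2 : rk i' < rk i := by
          apply Finset.card_lt_card
          refine ⟨fun x hx => ?_, fun hsub => ?_⟩
          · rw [Finset.mem_filter] at hx ⊢
            exact ⟨hx.1, hx.2.trans h1⟩
          · have h3 : i' ∈ Lo.filter fun x => a x < a i := Finset.mem_filter.2 ⟨hi', h1⟩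
            have := (Finset.mem_filter.1 (hsub h3)).2
            exact lt_irrefl _ this
        omega
    have hle : ∀ i ∈ Lo, (a i : ℤ) ^ 2 ≤ 4 ^ (C + 1) * 4 ^ rk i := by
      intro i hi
      have h1 : a i ≤ 2 ^ (rk i + C) + 1 := by
        apply hlog (a i) (Lo.filter fun i' => a i' < a i)
        intro i' hi'
        rw [Finset.mem_filter]
        exact ⟨(hLomem i').2 (hi'.trans ((hLomem i).1 hi)), hi'⟩
      have h2 : 1 ≤ 2 ^ (rk i + C) := Nat.one_le_two_pow
      have h3 : a i ≤ 2 ^ (rk i + C + 1) := by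
        have : 2 ^ (rk i + C + 1) = 2 ^ (rk i + C) + 2 ^ (rk i + C) := by ring
        omega
      have h4 : (a i : ℤ) ≤ 2 ^ (rk i + C + 1) := by exact_mod_cast h3
      calc (a i : ℤ) ^ 2 ≤ (2 ^ (rk i + C + 1)) ^ 2 := pow_le_pow_left₀ (by positivity) h4 2
        _ = 4 ^ (C + 1) * 4 ^ rk i := by
          rw [← pow_mul, mul_comm (rk i + C + 1), pow_mul]
          norm_num
          ring
    calc ∑ i ∈ Lo, (a i : ℤ) ^ 2 ≤ ∑ i ∈ Lo, 4 ^ (C + 1) * 4 ^ rk i := Finset.sum_le_sum hle
      _ = ∑ ρ ∈ Lo.image rk, 4 ^ (C + 1) * (4 : ℤ) ^ ρ :=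
          (Finset.sum_image (f := fun ρ => 4 ^ (C + 1) * (4 : ℤ) ^ ρ) hrkinj).symm
      _ ≤ ∑ ρ ∈ range k, 4 ^ (C + 1) * (4 : ℤ) ^ ρ := by
          apply Finset.sum_le_sum_of_subset_of_nonneg
          · intro ρ hρ
            obtain ⟨i, hi, rfl⟩ := Finset.mem_image.1 hρ
            exact Finset.mem_range.2 (hrk i hi)
          · intro _ _ _
            positivity
      _ = 4 ^ (C + 1) * ∑ ρ ∈ range k, (4 : ℤ) ^ ρ := by rw [Finset.mul_sum]
      _ ≤ 4 ^ (C + 1) * 4 ^ k := by
          apply mul_le_mul_of_nonneg_left _ (by positivity)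
          have : ∀ k : ℕ, ∑ ρ ∈ range k, (4 : ℤ) ^ ρ ≤ 4 ^ k := by
            intro k
            induction k with
            | zero => simp
            | succ k ih =>
              rw [Finset.sum_range_succ, pow_succ]
              have : (0 : ℤ) < 4 ^ k := by positivity
              linarith
          exact this k
      _ = 4 ^ (k + C + 1) := by ring
  have hSsum : ∑ i ∈ S, (a i : ℤ) ^ 2 ≤ S.card * (4 * 4 ^ (k + C + 1)) := by
    calc ∑ i ∈ S, (a i : ℤ) ^ 2 ≤ ∑ i ∈ S, (4 * 4 ^ (k + C + 1) : ℤ) := by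
          apply Finset.sum_le_sum
          intro i hi
          have h1 : a i ≤ 2 * 2 ^ (k + C + 1) := by
            have := (hS i hi).2
            rw [pow_succ] at this
            omega
          have h2 : (a i : ℤ) ≤ 2 * 2 ^ (k + C + 1) := by exact_mod_cast h1
          calc (a i : ℤ) ^ 2 ≤ (2 * 2 ^ (k + C + 1)) ^ 2 := pow_le_pow_left₀ (by positivity) h2 2
            _ = 4 * 4 ^ (k + C + 1) := by
              rw [mul_pow, ← pow_mul, mul_comm (k + C + 1), pow_mul]
              norm_num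
      _ = S.card * (4 * 4 ^ (k + C + 1)) := by rw [Finset.sum_const, nsmul_eq_mul]
  have hmain := four_pow_le (fun i => (a i : ℤ)) (Lo ∪ S) (hSne.mono Finset.subset_union_right)
    (fun A _ B _ h => weak_inj (a := fun i => (a i : ℤ)) hw A B h)
  rw [Finset.card_union_of_disjoint hdisj, Finset.sum_union hdisj] at hmain
  set r := S.card with hr
  have h1 : (4 : ℤ) ^ (k + r) ≤ 32 * (4 ^ (k + C + 1) + r * (4 * 4 ^ (k + C + 1))) := by
    refine hmain.trans ?_
    linarith
  have h2 : (4 : ℤ) ^ r ≤ 128 * 4 ^ C * (4 * r + 1) := by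
    have h3 : (4 : ℤ) ^ k * 4 ^ r ≤ 4 ^ k * (128 * 4 ^ C * (4 * r + 1)) := by
      calc (4 : ℤ) ^ k * 4 ^ r = 4 ^ (k + r) := by rw [pow_add]
        _ ≤ 32 * (4 ^ (k + C + 1) + r * (4 * 4 ^ (k + C + 1))) := h1
        _ = 4 ^ k * (128 * 4 ^ C * (4 * r + 1)) := by ring
    exact le_of_mul_le_mul_left h3 (by positivity)
  by_contra hcon
  push Not at hcon
  obtain ⟨t, ht⟩ := Nat.exists_eq_add_of_le hcon
  have h4 : ∀ n : ℕ, (4 * (n : ℤ) + 1) ≤ 5 * 2 ^ n := by
    intro n
    induction n with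
    | zero => norm_num
    | succ n ih =>
      rw [pow_succ]
      push_cast
      have : (1 : ℤ) ≤ 2 ^ n := by exact_mod_cast Nat.one_le_two_pow
      linarith
  have h5 : (4 : ℤ) ^ r ≤ 640 * 4 ^ C * 2 ^ r := by
    calc (4 : ℤ) ^ r ≤ 128 * 4 ^ C * (4 * r + 1) := h2
      _ ≤ 128 * 4 ^ C * (5 * 2 ^ r) := mul_le_mul_of_nonneg_left (h4 r) (by positivity)
      _ = 640 * 4 ^ C * 2 ^ r := by ring
  have h6 : (4 : ℤ) ^ r = 2 ^ r * 2 ^ r := by rw [← mul_pow]; norm_num
  have h7 : (2 : ℤ) ^ r ≤ 640 * 4 ^ C := by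
    rw [h6] at h5
    have h8 : (0 : ℤ) < 2 ^ r := by positivity
    exact le_of_mul_le_mul_right h5 h8
  have h9 : (2 : ℤ) ^ r = 1024 * 4 ^ C * 2 ^ t := by
    rw [ht, pow_add, pow_add, pow_mul]
    norm_num
    ring
  rw [h9] at h7
  have h10 : (1 : ℤ) ≤ 2 ^ t := by exact_mod_cast Nat.one_le_two_pow
  have h11 : (0 : ℤ) < 4 ^ C := by positivity
  nlinarith

end

end Pool.Agent.H5.WI
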