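import Mathlib

set_option autoImplicit false

/-!
# Combination of finite sets in blocks
-/

namespace Pool.Agent.H5.WI

open Finset

/-- no nontrivial relation with coefficients in `[-K, K]` -/
def Ind (K : ℕ) (a : ℕ → ℕ) (S : Set ℕ) : Prop :=
  ∀ s : Finset ℕ, (∀ i ∈ s, i ∈ S) → ∀ ε : ℕ → ℤ, (∀ i ∈ s, |ε i| ≤ K) →
    ∑ i ∈ s, ε i * (a i : ℤ) = 0 → ∀ i ∈ s, ε i = 0

theorem ind_pull {K N : ℕ} {a a' : ℕ → ℕ} {S T : Set ℕ} (g : ℕ → ℕ) (hinj : Set.InjOn g T)
    (hg : ∀ x ∈ T, g x ∈ S) (he : ∀ x ∈ T, a (g x) = N * a' x) (h : Ind K a S) : Ind K a' T := by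
  classical
  intro s hs ε hε hsum
  have hinj' : Set.InjOn g (s : Set ℕ) := hinj.mono fun x hx => hs x hx
  have hleft : ∀ x ∈ s, Function.invFunOn g (s : Set ℕ) (g x) = x := fun x hx =>
    hinj'.leftInvOn_invFunOn hx
  have h1 := h (s.image g) (by
    intro i hi
    obtain ⟨x, hx, rfl⟩ := Finset.mem_image.1 hi
    exact hg x (hs x hx)) (fun i => ε (Function.invFunOn g (s : Set ℕ) i)) (by
    intro i hi
    obtain ⟨x, hx, rfl⟩ := Finset.mem_image.1 hi
    simp only [hleft x hx]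
    exact hε x hx) (by
    rw [Finset.sum_image hinj']
    have : ∀ x ∈ s, ε (Function.invFunOn g (s : Set ℕ) (g x)) * (a (g x) : ℤ) =
        N * (ε x * (a' x : ℤ)) := by
      intro x hx
      rw [hleft x hx, he x (hs x hx)]
      push_cast
      ring
    rw [Finset.sum_congr rfl this, ← Finset.mul_sum, hsum, mul_zero])
  intro x hx
  have h2 := h1 (g x) (Finset.mem_image_of_mem g hx)
  simp only [hleft x hx] at h2
  exact h2

theorem ind_mono {K : ℕ} {a : ℕ → ℕ} {S T : Set ℕ} (hST : T ⊆ S) (h : Ind K a S) : Ind K a T :=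
  fun s hs ε hε hsum => h s (fun i hi => hST (hs i hi)) ε hε hsum

/-- start of a block -/
def ust (L : ℕ → ℕ) (b : ℕ) : ℕ := ∑ β ∈ range b, L β

theorem ust_succ (L : ℕ → ℕ) (b : ℕ) : ust L (b + 1) = ust L b + L b := by
  unfold ust
  rw [Finset.sum_range_succ]

theorem ust_mono {L : ℕ → ℕ} {b c : ℕ} (h : b ≤ c) : ust L b ≤ ust L c :=
  Finset.sum_le_sum_of_subset (Finset.range_subset_range.2 h)

theorem le_ust {L : ℕ → ℕ} (hL : ∀ b, 1 ≤ L b) (b : ℕ) : b ≤ ust L b := by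
  induction b with
  | zero => exact Nat.zero_le _
  | succ b ih =>
    rw [ust_succ]
    have := hL b
    omega

/-- the blocks together are weakly independent -/
theorem ind_blocks {G : ℕ → Finset ℕ} {L : ℕ → ℕ} (hG : ∀ b, Ind 1 (fun x => x) (G b : Set ℕ))
    (hs : ∀ b, ∑ x ∈ G b, x < 2 ^ L b) {a : ℕ → ℕ} (hinj : Function.Injective a)
    (bl xx : ℕ → ℕ) (hx : ∀ i, xx i ∈ G (bl i)) (ha : ∀ i, a i = 2 ^ ust L (bl i) * xx i) :
    Ind 1 a Set.univ := by
  classical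
  intro s _ ε hε hsum
  by_contra hcon
  push Not at hcon
  obtain ⟨i₁, hi₁, hi₁'⟩ := hcon
  set R := s.filter fun i => ε i ≠ 0 with hR
  have hRne : R.Nonempty := ⟨i₁, Finset.mem_filter.2 ⟨hi₁, hi₁'⟩⟩
  obtain ⟨i₀, hi₀, hmin⟩ := Finset.exists_min_image R bl hRne
  have hRs : ∀ i ∈ R, i ∈ s := fun i hi => (Finset.mem_filter.1 hi).1
  have hRsum : ∑ i ∈ R, ε i * (a i : ℤ) = 0 := by
    rw [← hsum, hR, Finset.sum_filter]
    apply Finset.sum_congr rfl
    intro i _
    split_ifs with h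
    · rfl
    · rw [not_not] at h
      rw [h, zero_mul]
  set b := bl i₀ with hb
  set B := R.filter fun i => bl i = b with hB
  have hBR : ∀ i ∈ B, i ∈ R := fun i hi => (Finset.mem_filter.1 hi).1
  have hBb : ∀ i ∈ B, bl i = b := fun i hi => (Finset.mem_filter.1 hi).2
  rw [← Finset.sum_filter_add_sum_filter_not R (fun i => bl i = b)] at hRsum
  -- the higher blocks are divisible
  have hdvd : (2 ^ ust L (b + 1) : ℤ) ∣ ∑ i ∈ R.filter (fun i => ¬ bl i = b), ε i * (a i : ℤ) := by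
    apply Finset.dvd_sum
    intro i hi
    rw [Finset.mem_filter] at hi
    have h1 : b + 1 ≤ bl i := by
      have := hmin i hi.1
      have := hi.2
      omega
    apply Dvd.dvd.mul_left
    rw [ha i]
    push_cast
    exact Dvd.dvd.mul_right (pow_dvd_pow 2 (ust_mono h1)) _
  have hBsum : ∑ i ∈ B, ε i * (a i : ℤ) = 2 ^ ust L b * ∑ i ∈ B, ε i * (xx i : ℤ) := by
    rw [Finset.mul_sum]
    apply Finset.sum_congr rfl
    intro i hi
    rw [ha i, hBb i hi]
    push_cast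
    ring
  have hdvd2 : (2 ^ L b : ℤ) ∣ ∑ i ∈ B, ε i * (xx i : ℤ) := by
    have h1 : (2 ^ ust L (b + 1) : ℤ) ∣ 2 ^ ust L b * ∑ i ∈ B, ε i * (xx i : ℤ) := by
      rw [← hBsum]
      have : ∑ i ∈ B, ε i * (a i : ℤ) = -∑ i ∈ R.filter (fun i => ¬ bl i = b), ε i * (a i : ℤ) := by
        linarith
      rw [this]
      exact hdvd.neg_right
    rw [ust_succ, pow_add] at h1
    exact (mul_dvd_mul_iff_left (by positivity)).1 h1
  -- the values are distinct
  have hxinj : Set.InjOn xx (B : Set ℕ) := by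
    intro i hi j hj h
    apply hinj
    rw [ha i, ha j, hBb i hi, hBb j hj, h]
  have hxB : ∀ i ∈ B, xx i ∈ G b := by
    intro i hi
    have := hx i
    rw [hBb i hi] at this
    exact this
  have habs : |∑ i ∈ B, ε i * (xx i : ℤ)| < 2 ^ L b := by
    have h1 : |∑ i ∈ B, ε i * (xx i : ℤ)| ≤ ∑ i ∈ B, (xx i : ℤ) := by
      refine (Finset.abs_sum_le_sum_abs _ _).trans (Finset.sum_le_sum fun i hi => ?_)
      rw [abs_mul, abs_of_nonneg (Int.natCast_nonneg (xx i))]
      have := hε i (hRs i (hBR i hi))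
      have h2 := Int.natCast_nonneg (xx i)
      push_cast at this
      nlinarith
    have h2 : ∑ i ∈ B, (xx i : ℤ) = ((∑ x ∈ B.image xx, x : ℕ) : ℤ) := by
      rw [Finset.sum_image hxinj]
      push_cast
      rfl
    have h3 : ∑ x ∈ B.image xx, x ≤ ∑ x ∈ G b, x := by
      apply Finset.sum_le_sum_of_subset
      intro x hx
      obtain ⟨i, hi, rfl⟩ := Finset.mem_image.1 hx
      exact hxB i hi
    have h4 : ((∑ x ∈ B.image xx, x : ℕ) : ℤ) < 2 ^ L b := by
      exact_mod_cast h3.trans_lt (hs b)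
    linarith
  have hzero : ∑ i ∈ B, ε i * (xx i : ℤ) = 0 := Int.eq_zero_of_abs_lt_dvd hdvd2 habs
  have hind : Ind 1 xx (B : Set ℕ) :=
    ind_pull (N := 1) (a := fun x => x) xx hxinj (fun i hi => hxB i hi)
      (fun i _ => by rw [one_mul]) (hG b)
  have h5 := hind B (fun i hi => hi) ε (fun i hi => hε i (hRs i (hBR i hi))) hzero i₀
    (Finset.mem_filter.2 ⟨hi₀, rfl⟩)
  exact (Finset.mem_filter.1 hi₀).2 h5

end Pool.Agent.H5.WI
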