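import Mathlib

set_option autoImplicit false

/-!
# Counting subset sums

If the subset sums of finitely many integer vectors with `ℓ¹`-norm at most `r`, supported on `P`, are
distinct, then there are at most `10 r |P|` of them.
-/

namespace Pool.Agent.H5.WI

open Finset

/-- the number of subsets is at most the number of possible vectors of sums -/
theorem two_pow_le (U P : Finset ℕ) (c : ℕ → ℕ → ℤ)
    (hinj : ∀ A ⊆ U, ∀ B ⊆ U, (∀ p ∈ P, ∑ i ∈ A, c i p = ∑ i ∈ B, c i p) → A = B) :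
    2 ^ U.card ≤ ∏ p ∈ P, (1 + ∑ i ∈ U, (c i p).natAbs) := by
  classical
  have hneg : ∀ p, ∀ A ⊆ U, 0 ≤ ∑ i ∈ A, c i p + ∑ i ∈ U, max (-(c i p)) 0 := by
    intro p A hA
    have h1 : ∑ i ∈ A, max (-(c i p)) 0 ≤ ∑ i ∈ U, max (-(c i p)) 0 :=
      Finset.sum_le_sum_of_subset_of_nonneg hA fun i _ _ => le_max_right _ _
    have h2 : 0 ≤ ∑ i ∈ A, (c i p + max (-(c i p)) 0) :=
      Finset.sum_nonneg fun i _ => by
        rcases le_total (c i p) 0 with h | h
        · rw [max_eq_left (by linarith)]; linarith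
        · rw [max_eq_right (by linarith)]; linarith
    rw [Finset.sum_add_distrib] at h2
    linarith
  have hpos : ∀ p, ∀ A ⊆ U, ∑ i ∈ A, c i p + ∑ i ∈ U, max (-(c i p)) 0 ≤
      ∑ i ∈ U, ((c i p).natAbs : ℤ) := by
    intro p A hA
    have h1 : ∑ i ∈ A, c i p ≤ ∑ i ∈ A, max (c i p) 0 :=
      Finset.sum_le_sum fun i _ => le_max_left _ _
    have h2 : ∑ i ∈ A, max (c i p) 0 ≤ ∑ i ∈ U, max (c i p) 0 :=
      Finset.sum_le_sum_of_subset_of_nonneg hA fun i _ _ => le_max_right _ _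
    have h3 : ∑ i ∈ U, max (c i p) 0 + ∑ i ∈ U, max (-(c i p)) 0 =
        ∑ i ∈ U, ((c i p).natAbs : ℤ) := by
      rw [← Finset.sum_add_distrib]
      apply Finset.sum_congr rfl
      intro i _
      rw [Int.natCast_natAbs]
      rcases le_total (c i p) 0 with h | h
      · rw [max_eq_right h, max_eq_left (by linarith), abs_of_nonpos h]; ring
      · rw [max_eq_left h, max_eq_right (by linarith), abs_of_nonneg h]; ring
    linarith
  -- the map
  let F : Finset ℕ → (∀ p ∈ P, ℕ) := fun A p _ =>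
    (∑ i ∈ A, c i p + ∑ i ∈ U, max (-(c i p)) 0).toNat
  have hmaps : ∀ A ∈ U.powerset, F A ∈ P.pi fun p => Finset.range (1 + ∑ i ∈ U, (c i p).natAbs) := by
    intro A hA
    rw [Finset.mem_powerset] at hA
    rw [Finset.mem_pi]
    intro p _
    rw [Finset.mem_range]
    have h1 := hpos p A hA
    have h2 := hneg p A hA
    change (∑ i ∈ A, c i p + ∑ i ∈ U, max (-(c i p)) 0).toNat < _
    have h3 : ((∑ i ∈ U, (c i p).natAbs : ℕ) : ℤ) = ∑ i ∈ U, ((c i p).natAbs : ℤ) := by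
      push_cast; rfl
    omega
  have hinj' : Set.InjOn F (U.powerset : Set (Finset ℕ)) := by
    intro A hA B hB hAB
    rw [Finset.mem_coe, Finset.mem_powerset] at hA hB
    apply hinj A hA B hB
    intro p hp
    have h := congrFun (congrFun hAB p) hp
    change (∑ i ∈ A, c i p + ∑ i ∈ U, max (-(c i p)) 0).toNat =
      (∑ i ∈ B, c i p + ∑ i ∈ U, max (-(c i p)) 0).toNat at h
    have h2 := hneg p A hA
    have h3 := hneg p B hB
    omega
  have h := Finset.card_le_card_of_injOn F hmaps hinj'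
  rwa [Finset.card_powerset, Finset.card_pi, Finset.prod_congr rfl fun p _ => Finset.card_range _]
    at h

theorem card_le_of_inj (U P : Finset ℕ) (c : ℕ → ℕ → ℤ) (r : ℕ) (hr : 1 ≤ r)
    (hc : ∀ i ∈ U, ∑ p ∈ P, (c i p).natAbs ≤ r)
    (hinj : ∀ A ⊆ U, ∀ B ⊆ U, (∀ p ∈ P, ∑ i ∈ A, c i p = ∑ i ∈ B, c i p) → A = B) :
    U.card ≤ 10 * r * P.card := by
  have h1 := two_pow_le U P c hinj
  set w : ℕ → ℕ := fun p => ∑ i ∈ U, (c i p).natAbs with hw
  have hsum : ∑ p ∈ P, w p ≤ r * U.card := by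
    rw [hw, Finset.sum_comm]
    calc ∑ i ∈ U, ∑ p ∈ P, (c i p).natAbs ≤ ∑ i ∈ U, r := Finset.sum_le_sum hc
      _ = r * U.card := by rw [Finset.sum_const, smul_eq_mul, mul_comm]
  have hr' : (1 : ℝ) ≤ r := by exact_mod_cast hr
  have h2 : (U.card : ℝ) * Real.log 2 ≤ ∑ p ∈ P, Real.log (1 + (w p : ℝ)) := by
    have h3 : ((2 : ℝ) ^ U.card) ≤ ∏ p ∈ P, (1 + (w p : ℝ)) := by exact_mod_cast h1
    have h4 := Real.log_le_log (by positivity) h3
    rw [Real.log_pow, Real.log_prod] at h4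
    · exact h4
    · intro p _
      positivity
  have h5 : ∀ p, Real.log (1 + (w p : ℝ)) ≤ (w p : ℝ) / (4 * r) + 4 * r := by
    intro p
    have h6 : (0 : ℝ) < 4 * r := by positivity
    have h7 : Real.log ((1 + (w p : ℝ)) / (4 * r)) ≤ (1 + (w p : ℝ)) / (4 * r) - 1 :=
      Real.log_le_sub_one_of_pos (by positivity)
    have h8 : Real.log (4 * (r : ℝ)) ≤ 4 * r - 1 := Real.log_le_sub_one_of_pos h6
    rw [Real.log_div (by positivity) h6.ne'] at h7
    have h9 : (1 + (w p : ℝ)) / (4 * r) = 1 / (4 * r) + (w p : ℝ) / (4 * r) := add_div _ _ _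
    have h10 : (1 : ℝ) / (4 * r) ≤ 1 := by
      rw [div_le_one h6]
      linarith
    linarith
  have h11 : (U.card : ℝ) * Real.log 2 ≤ (U.card : ℝ) / 4 + 4 * r * P.card := by
    refine h2.trans ((Finset.sum_le_sum fun p _ => h5 p).trans ?_)
    rw [Finset.sum_add_distrib, ← Finset.sum_div, Finset.sum_const, nsmul_eq_mul]
    have h12 : ∑ p ∈ P, (w p : ℝ) ≤ r * U.card := by exact_mod_cast hsum
    have h13 : (∑ p ∈ P, (w p : ℝ)) / (4 * r) ≤ (U.card : ℝ) / 4 := by
      rw [div_le_div_iff₀ (by positivity) (by norm_num)]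
      nlinarith
    linarith
  have h14 : (0.6931471803 : ℝ) < Real.log 2 := Real.log_two_gt_d9
  have h15 : (U.card : ℝ) * 0.4 ≤ 4 * r * P.card := by
    have h16 : (0 : ℝ) ≤ U.card := Nat.cast_nonneg _
    nlinarith
  have h17 : (U.card : ℝ) ≤ 10 * r * P.card := by linarith
  exact_mod_cast h17

end Pool.Agent.H5.WI
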