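import Pool.Agent.H5.WI.Comb
import Pool.Agent.H5.WI.Clus
import Pool.Agent.H5.WI.Col

set_option autoImplicit false

/-!
# Q1, its uniform finite form, and its restriction to dense or to sparse sequences
-/

namespace Pool.Agent.H5.WI

open Finset

/-- a finite union of strongly independent sequences -/
def FinU (a : ℕ → ℕ) : Prop := ∃ m : ℕ, ∃ f : ℕ → Fin m, ∀ j, Ind 2 a {i | f i = j}

/-- uniform form for finite sets -/
def Unif : Prop := ∃ m : ℕ, ∀ F : Finset ℕ, (∀ x ∈ F, 0 < x) → Ind 1 (fun x => x) {x | x ∈ F} →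
  ∃ c : ℕ → Fin m, ∀ j, Ind 2 (fun x => x) {x | x ∈ F ∧ c x = j}

theorem ind_inj {a : ℕ → ℕ} (hw : Ind 1 a Set.univ) : Function.Injective a :=
  a_inj (fun s ε hε h => hw s (fun i _ => Set.mem_univ i) ε (by exact_mod_cast hε) h)

theorem finU_of_unif (h : Unif) {a : ℕ → ℕ} (ha : ∀ i, 0 < a i) (hw : Ind 1 a Set.univ) :
    FinU a := by
  classical
  obtain ⟨m, hm⟩ := h
  have hinj := ind_inj hw
  obtain ⟨c, hc⟩ := exists_col m {s | s.Nonempty ∧ ∃ ε : ℕ → ℤ, (∀ i ∈ s, |ε i| ≤ 2) ∧
      (∀ i ∈ s, ε i ≠ 0) ∧ ∑ i ∈ s, ε i * (a i : ℤ) = 0} (by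
    intro n
    obtain ⟨c, hc⟩ := hm ((range n).image a) (by
      intro x hx
      obtain ⟨i, _, rfl⟩ := Finset.mem_image.1 hx
      exact ha i) (by
      have hr : ∀ x ∈ {x | x ∈ (range n).image a}, a (Function.invFun a x) = x := by
        intro x hx
        obtain ⟨i, _, hi⟩ := Finset.mem_image.1 (show x ∈ (range n).image a from hx)
        exact Function.invFun_eq ⟨i, hi⟩
      refine ind_pull (N := 1) (a := a) (S := Set.univ) (Function.invFun a) ?_ (fun x _ => Set.mem_univ _)
        (fun x hx => by rw [one_mul]; exact hr x hx) hw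
      intro x hx y hy hxy
      rw [← hr x hx, ← hr y hy, hxy])
    refine ⟨fun i => c (a i), ?_⟩
    rintro s ⟨hsne, ε, hε, hε0, hsum⟩ hsn ⟨j, hj⟩
    obtain ⟨i, hi⟩ := hsne
    have h1 : Ind 2 a {i | i ∈ s} := by
      refine ind_pull (N := 1) (a := fun x => x) (S := {x | x ∈ (range n).image a ∧ c x = j}) a
        hinj.injOn ?_ (fun x _ => by rw [one_mul]) (hc j)
      intro i hi
      exact ⟨Finset.mem_image_of_mem a (hsn hi), hj i hi⟩
    exact hε0 i hi (h1 s (fun i hi => hi) ε (by exact_mod_cast hε) hsum i hi))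
  refine ⟨m, c, fun j s hs ε hε hsum => ?_⟩
  by_contra hcon
  push Not at hcon
  obtain ⟨i₁, hi₁, hi₁'⟩ := hcon
  refine hc (s.filter fun i => ε i ≠ 0) ⟨⟨i₁, Finset.mem_filter.2 ⟨hi₁, hi₁'⟩⟩, ε, ?_, ?_, ?_⟩
    ⟨j, ?_⟩
  · intro i hi
    exact_mod_cast hε i (Finset.mem_filter.1 hi).1
  · intro i hi
    exact (Finset.mem_filter.1 hi).2
  · refine Eq.trans ?_ hsum
    rw [Finset.sum_filter]
    apply Finset.sum_congr rfl
    intro i _
    split_ifs with h
    · rfl
    · rw [not_not] at h
      rw [h, zero_mul]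
  · intro i hi
    exact hs i (Finset.mem_filter.1 hi).1

/-- the combined sequence -/
theorem bad_struct {F : ℕ → Finset ℕ} (hpos : ∀ m, ∀ x ∈ F m, 0 < x)
    (hw : ∀ m, Ind 1 (fun x => x) {x | x ∈ F m})
    (hbad : ∀ m, ¬ ∃ c : ℕ → Fin m, ∀ j, Ind 2 (fun x => x) {x | x ∈ F m ∧ c x = j})
    {e : Finset ℕ} (he : e ⊆ {1}) {b : ℕ → ℕ} (hb : StrictMono b) {L : ℕ → ℕ} (hL : ∀ β, 1 ≤ L β)
    {G : ℕ → Finset ℕ} (hGb : ∀ m, G (b m) = F m) (hGe : ∀ β, (¬ ∃ m, b m = β) → G β = e)
    (hsum : ∀ β, ∑ x ∈ G β, x < 2 ^ L β) :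
    ∃ a : ℕ → ℕ, (∀ i, 0 < a i) ∧ Ind 1 a Set.univ ∧ ¬ FinU a ∧ StrictMono a ∧
      ∀ n, n ∈ Set.range a ↔ ∃ β, ∃ x ∈ G β, n = 2 ^ ust L β * x := by
  classical
  let E : Set ℕ := {n | ∃ β, ∃ x ∈ G β, n = 2 ^ ust L β * x}
  have hGpos : ∀ β, ∀ x ∈ G β, 0 < x := by
    intro β x hx
    by_cases h : ∃ m, b m = β
    · obtain ⟨m, rfl⟩ := h
      rw [hGb] at hx
      exact hpos m x hx
    · rw [hGe β h] at hx
      have := he hx
      rw [Finset.mem_singleton] at this
      omega
  have hGind : ∀ β, Ind 1 (fun x => x) (G β : Set ℕ) := by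
    intro β
    by_cases h : ∃ m, b m = β
    · obtain ⟨m, rfl⟩ := h
      rw [hGb]
      exact hw m
    · rw [hGe β h]
      intro s hs ε hε hsum i hi
      have hi1 : ∀ i ∈ s, i = 1 := fun i hi => by
        have := he (hs i hi)
        rwa [Finset.mem_singleton] at this
      have hs1 : s = {1} := by
        rw [Finset.eq_singleton_iff_unique_mem]
        exact ⟨hi1 i hi ▸ hi, hi1⟩
      rw [hs1, Finset.sum_singleton] at hsum
      rw [hi1 i hi]
      simpa using hsum
  have hFne : ∀ m, (F (m + 1)).Nonempty := by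
    intro m
    by_contra h
    rw [Finset.not_nonempty_iff_eq_empty] at h
    apply hbad (m + 1)
    refine ⟨fun _ => 0, fun j s hs ε hε hsum i hi => ?_⟩
    have := (hs i hi).1
    rw [h] at this
    exact absurd this (Finset.notMem_empty i)
  have hEinf : E.Infinite := by
    refine Set.infinite_of_forall_exists_gt fun n => ?_
    obtain ⟨x, hx⟩ := hFne n
    refine ⟨2 ^ ust L (b (n + 1)) * x, ⟨b (n + 1), x, by rw [hGb]; exact hx, rfl⟩, ?_⟩
    have h1 : n + 1 ≤ b (n + 1) := hb.id_le (n + 1)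
    have h2 : b (n + 1) ≤ ust L (b (n + 1)) := le_ust hL _
    have h3 : ust L (b (n + 1)) < 2 ^ ust L (b (n + 1)) := Nat.lt_two_pow_self
    have h4 : 0 < x := hpos _ x hx
    have h5 : 2 ^ ust L (b (n + 1)) ≤ 2 ^ ust L (b (n + 1)) * x := Nat.le_mul_of_pos_right _ h4
    omega
  have hinf : (Set.ofPred (· ∈ E)).Infinite := hEinf
  have hmono : StrictMono (Nat.nth (· ∈ E)) := Nat.nth_strictMono hinf
  have hmem : ∀ i, Nat.nth (· ∈ E) i ∈ E := Nat.nth_mem_of_infinite hinf
  have hrange : ∀ n, n ∈ Set.range (Nat.nth (· ∈ E)) ↔ ∃ β, ∃ x ∈ G β, n = 2 ^ ust L β * x := by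
    intro n
    rw [Nat.range_nth_of_infinite hinf]
    exact Iff.rfl
  set a := Nat.nth (· ∈ E) with hadef
  choose bl xx hxx hax using hmem
  refine ⟨a, fun i => ?_, ind_blocks hGind hsum hmono.injective bl xx hxx hax, ?_, hmono, hrange⟩
  · rw [hax i]
    exact Nat.mul_pos (by positivity) (hGpos _ _ (hxx i))
  · rintro ⟨m, f, hf⟩
    apply hbad m
    let idx : ℕ → ℕ := fun x => Function.invFun a (2 ^ ust L (b m) * x)
    have hidx : ∀ x ∈ F m, a (idx x) = 2 ^ ust L (b m) * x := by
      intro x hx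
      apply Function.invFun_eq
      have h1 : 2 ^ ust L (b m) * x ∈ Set.range a :=
        (hrange _).2 ⟨b m, x, by rw [hGb]; exact hx, rfl⟩
      exact h1
    refine ⟨fun x => f (idx x), fun j => ?_⟩
    refine ind_pull (N := 2 ^ ust L (b m)) (S := {i | f i = j}) idx ?_ (fun x hx => hx.2)
      (fun x hx => hidx x hx.1) (hf j)
    intro x hx y hy hxy
    have h1 : 2 ^ ust L (b m) * x = 2 ^ ust L (b m) * y := by
      rw [← hidx x hx.1, ← hidx y hy.1, hxy]
    exact Nat.eq_of_mul_eq_mul_left (by positivity) h1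

theorem exists_block {L : ℕ → ℕ} (hL : ∀ b, 1 ≤ L b) {x : ℕ} (hx : 1 ≤ x) :
    ∃ β, β ≤ x ∧ 2 ^ ust L β ≤ x ∧ x < 2 ^ ust L (β + 1) := by
  classical
  have hex : ∃ β, x < 2 ^ ust L (β + 1) := by
    refine ⟨x, ?_⟩
    have h1 : x + 1 ≤ ust L (x + 1) := le_ust hL _
    have h2 : ust L (x + 1) < 2 ^ ust L (x + 1) := Nat.lt_two_pow_self
    omega
  have h1 := Nat.find_spec hex
  have h2 : 2 ^ ust L (Nat.find hex) ≤ x := by
    rcases Nat.eq_zero_or_pos (Nat.find hex) with h | h
    · rw [h]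
      unfold ust
      simpa using hx
    · have h3 := Nat.find_min hex (m := Nat.find hex - 1) (by omega)
      rw [Nat.sub_add_cancel h] at h3
      omega
  refine ⟨Nat.find hex, ?_, h2, h1⟩
  have h3 : Nat.find hex ≤ ust L (Nat.find hex) := le_ust hL _
  have h4 : ust L (Nat.find hex) < 2 ^ ust L (Nat.find hex) := Nat.lt_two_pow_self
  omega

/-- the combined sequence with its counting function under control -/
theorem bad_seq {F : ℕ → Finset ℕ} (hpos : ∀ m, ∀ x ∈ F m, 0 < x)
    (hw : ∀ m, Ind 1 (fun x => x) {x | x ∈ F m})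
    (hbad : ∀ m, ¬ ∃ c : ℕ → Fin m, ∀ j, Ind 2 (fun x => x) {x | x ∈ F m ∧ c x = j})
    {ω : ℕ → ℝ} (h0 : ∀ x, 0 ≤ ω x) (hω : Filter.Tendsto ω Filter.atTop Filter.atTop) :
    (∃ a : ℕ → ℕ, (∀ i, 0 < a i) ∧ Ind 1 a Set.univ ∧
      (∀ x : ℕ, 1 ≤ x → Real.logb 2 x ≤ ({i | a i ≤ x}.ncard : ℝ) + ω x) ∧ ¬ FinU a) ∧
    (∃ a : ℕ → ℕ, (∀ i, 0 < a i) ∧ Ind 1 a Set.univ ∧
      (∀ x : ℕ, ({i | a i ≤ x}.ncard : ℝ) ≤ ω x) ∧ ¬ FinU a) := by
  classical
  let size : ℕ → ℕ := fun m => ∑ x ∈ F m, x + 1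
  have hsize1 : ∀ m, ∑ x ∈ F m, x < 2 ^ size m := by
    intro m
    have h1 : size m < 2 ^ size m := Nat.lt_two_pow_self
    have h2 : size m = ∑ x ∈ F m, x + 1 := rfl
    omega
  have hsize2 : ∀ m, (F m).card ≤ size m := by
    intro m
    have h1 : (F m).card ≤ ∑ x ∈ F m, x := by
      rw [Finset.card_eq_sum_ones]
      exact Finset.sum_le_sum fun x hx => hpos m x hx
    exact h1.trans (Nat.le_succ _)
  obtain ⟨b, hb, hP⟩ := Filter.extraction_forall_of_eventually
    (P := fun m k => ∀ x ≥ k, ((∑ m' ∈ range (m + 1), size m' : ℕ) : ℝ) ≤ ω x) (by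
      intro m
      rw [Filter.eventually_forall_ge_atTop]
      exact hω.eventually_ge_atTop _)
  let D : ℕ → ℕ := Function.extend b size (fun _ => 0)
  let L : ℕ → ℕ := Function.extend b size (fun _ => 1)
  have hD1 : ∀ m, D (b m) = size m := fun m => hb.injective.extend_apply _ _ m
  have hD2 : ∀ β, (¬ ∃ m, b m = β) → D β = 0 := fun β h => Function.extend_apply' _ _ _ h
  have hL1 : ∀ m, L (b m) = size m := fun m => hb.injective.extend_apply _ _ m
  have hL2 : ∀ β, (¬ ∃ m, b m = β) → L β = 1 := fun β h => Function.extend_apply' _ _ _ h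
  have hL : ∀ β, 1 ≤ L β := by
    intro β
    by_cases h : ∃ m, b m = β
    · obtain ⟨m, rfl⟩ := h
      rw [hL1]
      exact Nat.le_add_left _ _
    · rw [hL2 β h]
  have hDsum : ∀ β x : ℕ, β ≤ x → ((∑ β' ∈ range (β + 1), D β' : ℕ) : ℝ) ≤ ω x := by
    intro β
    induction β with
    | zero =>
      intro x hx
      by_cases h : ∃ m, b m = 0
      · obtain ⟨m, hm⟩ := h
        have h1 := hP m x (by omega)
        refine le_trans ?_ h1
        rw [zero_add, Finset.sum_range_one, ← hm, hD1]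
        have h2 : size m ≤ ∑ m' ∈ range (m + 1), size m' :=
          Finset.single_le_sum (f := size) (fun _ _ => Nat.zero_le _) (Finset.self_mem_range_succ m)
        exact_mod_cast h2
      · rw [zero_add, Finset.sum_range_one, hD2 0 h]
        simpa using h0 x
    | succ β ih =>
      intro x hx
      by_cases h : ∃ m, b m = β + 1
      · obtain ⟨m, hm⟩ := h
        have h1 := hP m x (by omega)
        refine le_trans ?_ h1
        have h2 : ∑ β' ∈ range (β + 1 + 1), D β' = ∑ β' ∈ (range (m + 1)).image b, D β' := by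
          symm
          apply Finset.sum_subset
          · intro y hy
            obtain ⟨m', hm', rfl⟩ := Finset.mem_image.1 hy
            rw [Finset.mem_range] at hm' ⊢
            have := hb.monotone (Nat.lt_succ_iff.1 hm')
            omega
          · intro y hy hy'
            apply hD2
            rintro ⟨m', rfl⟩
            apply hy'
            apply Finset.mem_image_of_mem
            rw [Finset.mem_range] at hy ⊢
            have h3 : b m' ≤ b m := by omega
            have := hb.le_iff_le.1 h3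
            omega
        rw [h2, Finset.sum_image hb.injective.injOn]
        apply le_of_eq
        congr 1
        exact Finset.sum_congr rfl fun m' _ => hD1 m'
      · rw [Finset.sum_range_succ, hD2 _ h, add_zero]
        exact ih x (by omega)
  have key : ∀ e : Finset ℕ, e ⊆ {1} → ∃ a : ℕ → ℕ, (∀ i, 0 < a i) ∧ Ind 1 a Set.univ ∧
      ¬ FinU a ∧ StrictMono a ∧ ∀ n, n ∈ Set.range a ↔
        ∃ β, ∃ x ∈ Function.extend b F (fun _ => e) β, n = 2 ^ ust L β * x := by
    intro e he
    have hG1 : ∀ m, Function.extend b F (fun _ => e) (b m) = F m := fun m =>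
      hb.injective.extend_apply _ _ m
    have hG2 : ∀ β, (¬ ∃ m, b m = β) → Function.extend b F (fun _ => e) β = e := fun β h =>
      Function.extend_apply' _ _ _ h
    refine bad_struct hpos hw hbad he hb hL hG1 hG2 ?_
    intro β
    by_cases h : ∃ m, b m = β
    · obtain ⟨m, rfl⟩ := h
      rw [hG1, hL1]
      exact hsize1 m
    · rw [hG2 β h, hL2 β h]
      calc ∑ x ∈ e, x ≤ ∑ x ∈ {1}, x := Finset.sum_le_sum_of_subset he
        _ < 2 ^ 1 := by simp
  constructor
  · obtain ⟨a, hapos, haw, habad, hamono, harange⟩ := key {1} (Finset.Subset.refl _)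
    refine ⟨a, hapos, haw, ?_, habad⟩
    intro x hx
    obtain ⟨β, hβx, hβ1, hβ2⟩ := exists_block hL hx
    have h1 : Real.logb 2 x ≤ (ust L (β + 1) : ℝ) := by
      rw [Real.logb_le_iff_le_rpow (by norm_num) (by exact_mod_cast hx), Real.rpow_natCast]
      exact_mod_cast hβ2.le
    have h2 : ust L (β + 1) = ∑ β' ∈ range (β + 1), D β' +
        ((range (β + 1)).filter fun β' => ¬ ∃ m, b m = β').card := by
      unfold ust
      rw [Finset.card_filter, ← Finset.sum_add_distrib]
      apply Finset.sum_congr rfl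
      intro β' _
      by_cases h : ∃ m, b m = β'
      · rw [if_neg (not_not.2 h)]
        obtain ⟨m, rfl⟩ := h
        rw [hL1, hD1, add_zero]
      · rw [if_pos h, hL2 _ h, hD2 _ h]
    have h3 : ((range (β + 1)).filter fun β' => ¬ ∃ m, b m = β').card ≤ {i | a i ≤ x}.ncard := by
      let g : ℕ → ℕ := fun β' => Function.invFun a (2 ^ ust L β')
      have hg : ∀ β' ∈ (range (β + 1)).filter fun β' => ¬ ∃ m, b m = β', a (g β') = 2 ^ ust L β' := by
        intro β' hβ'
        apply Function.invFun_eq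
        have h4 := (Finset.mem_filter.1 hβ').2
        have h5 : 2 ^ ust L β' ∈ Set.range a := by
          rw [harange]
          refine ⟨β', 1, ?_, by rw [mul_one]⟩
          rw [Function.extend_apply' _ _ _ h4]
          exact Finset.mem_singleton_self 1
        exact h5
      have hust : StrictMono (ust L) := strictMono_nat_of_lt_succ fun n => by
        rw [ust_succ]
        have := hL n
        omega
      have hginj : Set.InjOn g ((range (β + 1)).filter fun β' => ¬ ∃ m, b m = β' : Finset ℕ) := by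
        intro y hy z hz hyz
        have h4 : 2 ^ ust L y = 2 ^ ust L z := by
          rw [← hg y hy, ← hg z hz, hyz]
        exact hust.injective (Nat.pow_right_injective (le_refl 2) h4)
      rw [← Finset.card_image_of_injOn hginj, ← Set.ncard_coe_finset]
      apply Set.ncard_le_ncard _ ?_
      · intro i hi
        rw [Finset.mem_coe, Finset.mem_image] at hi
        obtain ⟨β', hβ', rfl⟩ := hi
        rw [Set.mem_setOf_eq, hg β' hβ']
        have h4 := Finset.mem_range.1 (Finset.mem_filter.1 hβ').1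
        exact (Nat.pow_le_pow_right (by norm_num) (ust_mono (Nat.lt_succ_iff.1 h4))).trans hβ1
      · apply (Set.finite_Iic x).subset
        intro i hi
        exact (hamono.id_le i).trans hi
    have h4 := hDsum β x hβx
    rw [h2] at h1
    push_cast at h1
    have h5 : (((range (β + 1)).filter fun β' => ¬ ∃ m, b m = β').card : ℝ) ≤
        ({i | a i ≤ x}.ncard : ℝ) := by exact_mod_cast h3
    push_cast at h4
    linarith
  · obtain ⟨a, hapos, haw, habad, hamono, harange⟩ := key ∅ (Finset.empty_subset _)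
    refine ⟨a, hapos, haw, ?_, habad⟩
    intro x
    rcases Nat.eq_zero_or_pos x with rfl | hx
    · have h1 : {i | a i ≤ 0} = ∅ := by
        ext i
        have := hapos i
        simp only [Set.mem_setOf_eq, Set.mem_empty_iff_false, iff_false]
        omega
      rw [h1, Set.ncard_empty]
      simpa using h0 0
    · obtain ⟨β, hβx, hβ1, hβ2⟩ := exists_block hL hx
      refine le_trans ?_ (hDsum β x hβx)
      have h1 : {i | a i ≤ x}.ncard ≤ ∑ β' ∈ range (β + 1),
          (Function.extend b F (fun _ => (∅ : Finset ℕ)) β').card := by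
        rw [← Set.ncard_image_of_injective _ hamono.injective]
        refine le_trans ?_ (Finset.card_biUnion_le (s := range (β + 1))
          (t := fun β' => (Function.extend b F (fun _ => (∅ : Finset ℕ)) β').image
            fun y => 2 ^ ust L β' * y) |>.trans (Finset.sum_le_sum fun β' _ => Finset.card_image_le))
        rw [← Set.ncard_coe_finset]
        apply Set.ncard_le_ncard _ (Finset.finite_toSet _)
        rintro _ ⟨i, hi, rfl⟩
        obtain ⟨β', y, hy, hay⟩ := (harange (a i)).1 ⟨i, rfl⟩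
        rw [Finset.mem_coe, Finset.mem_biUnion]
        refine ⟨β', ?_, Finset.mem_image.2 ⟨y, hy, hay.symm⟩⟩
        rw [Finset.mem_range]
        by_contra hcon
        push Not at hcon
        have h2 : 2 ^ ust L (β + 1) ≤ 2 ^ ust L β' :=
          Nat.pow_le_pow_right (by norm_num) (ust_mono hcon)
        have h3 : 0 < y := by
          rcases Nat.eq_zero_or_pos y with h | h
          · have := hapos i
            rw [hay, h, mul_zero] at this
            omega
          · exact h
        have h4 : 2 ^ ust L β' ≤ 2 ^ ust L β' * y := Nat.le_mul_of_pos_right _ h3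
        have h5 : a i ≤ x := hi
        omega
      have h2 : ∑ β' ∈ range (β + 1), (Function.extend b F (fun _ => (∅ : Finset ℕ)) β').card ≤
          ∑ β' ∈ range (β + 1), D β' := by
        apply Finset.sum_le_sum
        intro β' _
        by_cases h : ∃ m, b m = β'
        · obtain ⟨m, rfl⟩ := h
          rw [hD1, hb.injective.extend_apply]
          exact hsize2 m
        · rw [Function.extend_apply' _ _ _ h]
          simp
      exact_mod_cast h1.trans h2

/-- if the uniform statement fails there are bad sequences, dense ones and sparse ones -/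
theorem bad_of_not_unif (h : ¬ Unif) {ω : ℕ → ℝ} (h0 : ∀ x, 0 ≤ ω x)
    (hω : Filter.Tendsto ω Filter.atTop Filter.atTop) :
    (∃ a : ℕ → ℕ, (∀ i, 0 < a i) ∧ Ind 1 a Set.univ ∧
      (∀ x : ℕ, 1 ≤ x → Real.logb 2 x ≤ ({i | a i ≤ x}.ncard : ℝ) + ω x) ∧ ¬ FinU a) ∧
    (∃ a : ℕ → ℕ, (∀ i, 0 < a i) ∧ Ind 1 a Set.univ ∧
      (∀ x : ℕ, ({i | a i ≤ x}.ncard : ℝ) ≤ ω x) ∧ ¬ FinU a) := by
  unfold Unif at h
  push Not at h
  choose F hF1 hF2 hF3 using h
  refine bad_seq hF1 hF2 (fun m => ?_) h0 hω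
  rintro ⟨c, hc⟩
  obtain ⟨j, hj⟩ := hF3 m c
  exact hj (hc j)

end Pool.Agent.H5.WI
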