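import Pool.Agent.H5.WI.Clus

set_option autoImplicit false

/-!
# Sequences with bounded clusters are finite unions of independent sequences
-/

namespace Pool.Agent.H5.WI

open Finset

theorem geomT (T : ℕ) (hT : 1 ≤ T) : ∀ e₀ : ℕ, ∀ Q : Finset ℕ,
    (∀ q ∈ Q, q < e₀ ∧ q % T = e₀ % T) → (2 ^ T - 1) * ∑ q ∈ Q, 2 ^ q < 2 ^ e₀ := by
  intro e₀
  induction e₀ using Nat.strong_induction_on with
  | _ e₀ ih =>
    intro Q hQ
    rcases Nat.lt_or_ge e₀ T with h | h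
    · have hQe : Q = ∅ := by
        rw [Finset.eq_empty_iff_forall_notMem]
        intro q hq
        obtain ⟨h1, h2⟩ := hQ q hq
        rw [Nat.mod_eq_of_lt (h1.trans h), Nat.mod_eq_of_lt h] at h2
        omega
      rw [hQe]
      simp
    · have hIH := ih (e₀ - T) (by omega) (Q.erase (e₀ - T)) (by
        intro q hq
        rw [Finset.mem_erase] at hq
        obtain ⟨h1, h2⟩ := hQ q hq.2
        have h3 : (e₀ - T) % T = e₀ % T := by
          conv_rhs => rw [← Nat.sub_add_cancel h, Nat.add_mod_right]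
        refine ⟨?_, by rw [h3, h2]⟩
        -- `q ≡ e₀` and `q < e₀` give `q ≤ e₀ - T`
        have h4 : T ∣ e₀ - q := (Nat.modEq_iff_dvd' h1.le).1 h2
        have h5 : T ≤ e₀ - q := Nat.le_of_dvd (by omega) h4
        have h6 := hq.1
        omega)
      have h1 : ∑ q ∈ Q, 2 ^ q ≤ 2 ^ (e₀ - T) + ∑ q ∈ Q.erase (e₀ - T), 2 ^ q := by
        by_cases hmem : e₀ - T ∈ Q
        · rw [Finset.add_sum_erase _ _ hmem]
        · rw [Finset.erase_eq_of_notMem hmem]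
          exact Nat.le_add_left _ _
      have h2 : 1 ≤ 2 ^ T := Nat.one_le_two_pow
      calc (2 ^ T - 1) * ∑ q ∈ Q, 2 ^ q
          ≤ (2 ^ T - 1) * (2 ^ (e₀ - T) + ∑ q ∈ Q.erase (e₀ - T), 2 ^ q) :=
            Nat.mul_le_mul_left _ h1
        _ = (2 ^ T - 1) * 2 ^ (e₀ - T) + (2 ^ T - 1) * ∑ q ∈ Q.erase (e₀ - T), 2 ^ q := by ring
        _ < (2 ^ T - 1) * 2 ^ (e₀ - T) + 2 ^ (e₀ - T) := Nat.add_lt_add_left hIH _
        _ = 2 ^ T * 2 ^ (e₀ - T) := by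
            obtain ⟨w, hw⟩ := Nat.exists_eq_add_of_le h2
            rw [hw]
            simp only [Nat.add_sub_cancel_left]
            ring
        _ = 2 ^ e₀ := by rw [← pow_add, Nat.add_sub_cancel' h]

/-- one term in each of a thin set of dyadic intervals -/
theorem thin_indep {a : ℕ → ℕ} (ha : ∀ i, 0 < a i) {K T : ℕ} (hT : 1 ≤ T) (hK : 2 * K < 2 ^ T)
    (X : Set ℕ) (hX : ∀ i ∈ X, ∀ j ∈ X, Nat.log 2 (a i) % T = Nat.log 2 (a j) % T)
    (hX2 : ∀ i ∈ X, ∀ j ∈ X, Nat.log 2 (a i) = Nat.log 2 (a j) → i = j)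
    (s : Finset ℕ) (hs : ∀ i ∈ s, i ∈ X) (ε : ℕ → ℤ) (hε : ∀ i ∈ s, |ε i| ≤ K)
    (hsum : ∑ i ∈ s, ε i * (a i : ℤ) = 0) : ∀ i ∈ s, ε i = 0 := by
  classical
  by_contra hcon
  push Not at hcon
  obtain ⟨i₁, hi₁, hi₁'⟩ := hcon
  set R := s.filter fun i => ε i ≠ 0 with hR
  have hRne : R.Nonempty := ⟨i₁, Finset.mem_filter.2 ⟨hi₁, hi₁'⟩⟩
  obtain ⟨i₀, hi₀, hmax⟩ := Finset.exists_max_image R (fun i => Nat.log 2 (a i)) hRne
  have hRs : ∀ i ∈ R, i ∈ s := fun i hi => (Finset.mem_filter.1 hi).1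
  have hRsum : ∑ i ∈ R, ε i * (a i : ℤ) = 0 := by
    rw [← hsum, hR, Finset.sum_filter]
    apply Finset.sum_congr rfl
    intro i _
    split_ifs with h
    · rfl
    · rw [not_not] at h
      rw [h, zero_mul]
  rw [← Finset.add_sum_erase _ _ hi₀] at hRsum
  have h1 : |ε i₀ * (a i₀ : ℤ)| ≤ ∑ i ∈ R.erase i₀, K * (a i : ℤ) := by
    have e : ε i₀ * (a i₀ : ℤ) = -∑ i ∈ R.erase i₀, ε i * (a i : ℤ) := by linarith
    rw [e, abs_neg]
    refine (Finset.abs_sum_le_sum_abs _ _).trans (Finset.sum_le_sum fun i hi => ?_)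
    rw [abs_mul, abs_of_nonneg (Int.natCast_nonneg (a i))]
    exact mul_le_mul_of_nonneg_right (hε i (hRs i (Finset.mem_of_mem_erase hi)))
      (Int.natCast_nonneg _)
  have h2 : (a i₀ : ℤ) ≤ |ε i₀ * (a i₀ : ℤ)| := by
    rw [abs_mul, abs_of_nonneg (Int.natCast_nonneg (a i₀))]
    have h3 : 1 ≤ |ε i₀| := Int.one_le_abs (Finset.mem_filter.1 hi₀).2
    nlinarith [Int.natCast_nonneg (a i₀)]
  have h4 : (a i₀ : ℤ) ≤ ∑ i ∈ R.erase i₀, K * (a i : ℤ) := h2.trans h1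
  have h5 : a i₀ ≤ ∑ i ∈ R.erase i₀, K * a i := by exact_mod_cast h4
  -- dyadic exponents
  have hinj : Set.InjOn (fun i => Nat.log 2 (a i)) (R.erase i₀ : Set ℕ) := by
    intro i hi j hj h
    exact hX2 i (hs i (hRs i (Finset.mem_of_mem_erase hi))) j
      (hs j (hRs j (Finset.mem_of_mem_erase hj))) h
  have h6 := geomT T hT (Nat.log 2 (a i₀)) ((R.erase i₀).image fun i => Nat.log 2 (a i)) (by
    intro q hq
    obtain ⟨i, hi, rfl⟩ := Finset.mem_image.1 hq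
    have hiR := Finset.mem_of_mem_erase hi
    refine ⟨lt_of_le_of_ne (hmax i hiR) fun h => ?_, hX i (hs i (hRs i hiR)) i₀ (hs i₀ (hRs i₀ hi₀))⟩
    exact (Finset.ne_of_mem_erase hi)
      (hX2 i (hs i (hRs i hiR)) i₀ (hs i₀ (hRs i₀ hi₀)) h))
  rw [Finset.sum_image hinj] at h6
  have h7 : ∑ i ∈ R.erase i₀, K * a i ≤ (2 ^ T - 1) * ∑ i ∈ R.erase i₀, 2 ^ Nat.log 2 (a i) := by
    rw [Finset.mul_sum]
    apply Finset.sum_le_sum
    intro i _
    have h8 : a i < 2 ^ (Nat.log 2 (a i) + 1) := Nat.lt_pow_succ_log_self (by norm_num) _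
    have h9 : a i ≤ 2 * 2 ^ Nat.log 2 (a i) := by
      rw [pow_succ] at h8
      omega
    calc K * a i ≤ K * (2 * 2 ^ Nat.log 2 (a i)) := Nat.mul_le_mul_left _ h9
      _ = (2 * K) * 2 ^ Nat.log 2 (a i) := by ring
      _ ≤ (2 ^ T - 1) * 2 ^ Nat.log 2 (a i) := Nat.mul_le_mul_right _ (by omega)
  have h10 : 2 ^ Nat.log 2 (a i₀) ≤ a i₀ := Nat.pow_log_le_self 2 (ha i₀).ne'
  omega

/-- **Dense sequences.** -/
theorem main_dense {a : ℕ → ℕ} (ha : ∀ i, 0 < a i)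
    (hw : ∀ s : Finset ℕ, ∀ ε : ℕ → ℤ, (∀ i ∈ s, |ε i| ≤ 1) →
      ∑ i ∈ s, ε i * (a i : ℤ) = 0 → ∀ i ∈ s, ε i = 0)
    (C : ℕ) (hA : ∀ x : ℕ, 1 ≤ x → Real.logb 2 x ≤ ({i | a i ≤ x}.ncard : ℝ) + C)
    {K T : ℕ} (hT : 1 ≤ T) (hK : 2 * K < 2 ^ T) :
    ∃ f : ℕ → Fin ((2 * C + 10) * T), ∀ j, ∀ s : Finset ℕ, (∀ i ∈ s, f i = j) →
      ∀ ε : ℕ → ℤ, (∀ i ∈ s, |ε i| ≤ K) → ∑ i ∈ s, ε i * (a i : ℤ) = 0 → ∀ i ∈ s, ε i = 0 := by
  classical
  have hinj := a_inj hw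
  let S : ℕ → Finset ℕ := fun j =>
    (finite_le hw (2 ^ (j + 1))).toFinset.filter fun i => Nat.log 2 (a i) = j
  have hSmem : ∀ i, i ∈ S (Nat.log 2 (a i)) := by
    intro i
    rw [Finset.mem_filter, Set.Finite.mem_toFinset]
    exact ⟨(Nat.lt_pow_succ_log_self (by norm_num) _).le, rfl⟩
  have hScard : ∀ j, (S j).card < 2 * C + 10 := by
    intro j
    apply cluster hw C hA j
    intro i hi
    have h1 := (Finset.mem_filter.1 hi).2
    rw [← h1]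
    exact ⟨Nat.pow_log_le_self 2 (ha i).ne', Nat.lt_pow_succ_log_self (by norm_num) _⟩
  let rk : ℕ → ℕ := fun i => ((S (Nat.log 2 (a i))).filter fun i' => a i' < a i).card
  have hrk : ∀ i, rk i < 2 * C + 10 := fun i =>
    lt_of_le_of_lt (Finset.card_filter_le _ _) (hScard _)
  have hrkinj : ∀ i j, Nat.log 2 (a i) = Nat.log 2 (a j) → rk i = rk j → i = j := by
    have key : ∀ i j, Nat.log 2 (a i) = Nat.log 2 (a j) → a i < a j → rk i < rk j := by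
      intro i j h h1
      apply Finset.card_lt_card
      refine ⟨fun x hx => ?_, fun hsub => ?_⟩
      · rw [Finset.mem_filter] at hx ⊢
        exact ⟨h ▸ hx.1, hx.2.trans h1⟩
      · have h3 : i ∈ (S (Nat.log 2 (a j))).filter fun x => a x < a j :=
          Finset.mem_filter.2 ⟨h ▸ hSmem i, h1⟩
        have := (Finset.mem_filter.1 (hsub h3)).2
        exact lt_irrefl _ this
    intro i j h h1
    rcases lt_trichotomy (a i) (a j) with h2 | h2 | h2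
    · have := key i j h h2
      omega
    · exact hinj h2
    · have := key j i h.symm h2
      omega
  have hTpos : 0 < T := hT
  refine ⟨fun i => finProdFinEquiv (⟨rk i, hrk i⟩, ⟨Nat.log 2 (a i) % T, Nat.mod_lt _ hTpos⟩), ?_⟩
  intro j s hs ε hε hsum
  obtain ⟨⟨j1, j2⟩, rfl⟩ := finProdFinEquiv.surjective j
  have h1 : ∀ i ∈ s, rk i = j1 ∧ Nat.log 2 (a i) % T = j2 := by
    intro i hi
    have h2 := finProdFinEquiv.injective (hs i hi)
    rw [Prod.ext_iff] at h2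
    exact ⟨congrArg Fin.val h2.1, congrArg Fin.val h2.2⟩
  refine thin_indep ha hT hK {i | rk i = j1 ∧ Nat.log 2 (a i) % T = j2} ?_ ?_ s h1 ε hε hsum
  · intro i hi j hj
    rw [hi.2, hj.2]
  · intro i hi j hj h
    exact hrkinj i j h (hi.1.trans hj.1.symm)

end Pool.Agent.H5.WI
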