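import Pool.Agent.H5.WI.Comb
import Pool.Agent.H5.WI.Clus

set_option autoImplicit false

/-!
# A dense weakly independent sequence that needs three classes
-/

namespace Pool.Agent.H5.WI

open Finset

/-- `1, 6, 10, 12, 14, 64, 128, 256, …` -/
def low (i : ℕ) : ℕ :=
  if i = 0 then 1 else if i = 1 then 6 else if i = 2 then 10 else if i = 3 then 12
  else if i = 4 then 14 else 2 ^ (i + 1)

theorem low_five (i : ℕ) : low (i + 5) = 2 ^ (i + 6) := by
  unfold low
  rw [if_neg (by omega), if_neg (by omega), if_neg (by omega), if_neg (by omega),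
    if_neg (by omega)]

theorem low_pos (i : ℕ) : 0 < low i := by
  unfold low
  split_ifs <;> positivity

theorem low_mono : StrictMono low := by
  apply strictMono_nat_of_lt_succ
  intro n
  rcases Nat.lt_or_ge n 5 with h | h
  · interval_cases n <;> decide
  · obtain ⟨i, rfl⟩ := Nat.exists_eq_add_of_le h
    rw [add_comm 5 i, low_five, show i + 5 + 1 = (i + 1) + 5 by ring, low_five]
    exact Nat.pow_lt_pow_right (by norm_num) (by omega)

theorem ind_five : Ind 1 (fun x => x) ((({1, 6, 10, 12, 14} : Finset ℕ)) : Set ℕ) := by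
  intro s hs ε hε hsum
  have hsub : s ⊆ {1, 6, 10, 12, 14} := fun i hi => hs i hi
  let e : ℕ → ℤ := fun i => if i ∈ s then ε i else 0
  have h1 : ∑ i ∈ s, ε i * (i : ℤ) = ∑ i ∈ ({1, 6, 10, 12, 14} : Finset ℕ), e i * (i : ℤ) := by
    rw [← Finset.sum_subset hsub (f := fun i => e i * (i : ℤ))]
    · apply Finset.sum_congr rfl
      intro i hi
      simp only [e, if_pos hi]
    · intro i _ hi
      simp only [e, if_neg hi, zero_mul]
  have h2 : ∀ i, -1 ≤ e i ∧ e i ≤ 1 := by
    intro i
    simp only [e]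
    split_ifs with h
    · have := hε i h
      rw [abs_le] at this
      push_cast at this
      exact this
    · constructor <;> norm_num
  have h3 : e 1 * 1 + (e 6 * 6 + (e 10 * 10 + (e 12 * 12 + e 14 * 14))) = 0 := by
    have h4 : ∑ i ∈ ({1, 6, 10, 12, 14} : Finset ℕ), e i * (i : ℤ) = 0 := by
      rw [← h1]
      exact hsum
    rw [Finset.sum_insert (by decide), Finset.sum_insert (by decide), Finset.sum_insert (by decide),
      Finset.sum_insert (by decide), Finset.sum_singleton] at h4
    push_cast at h4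
    exact h4
  have h5 : e 1 = 0 ∧ e 6 = 0 ∧ e 10 = 0 ∧ e 12 = 0 ∧ e 14 = 0 := by
    obtain ⟨a1, b1⟩ := h2 1
    obtain ⟨a2, b2⟩ := h2 6
    obtain ⟨a3, b3⟩ := h2 10
    obtain ⟨a4, b4⟩ := h2 12
    obtain ⟨a5, b5⟩ := h2 14
    generalize e 1 = x1 at *
    generalize e 6 = x2 at *
    generalize e 10 = x3 at *
    generalize e 12 = x4 at *
    generalize e 14 = x5 at *
    clear h1 h2 hsum hs hε hsub
    interval_cases x1 <;> interval_cases x2 <;> interval_cases x3 <;> interval_cases x4 <;> omega
  intro i hi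
  have h6 : e i = ε i := by simp only [e, if_pos hi]
  rw [← h6]
  have h7 := hsub hi
  simp only [Finset.mem_insert, Finset.mem_singleton] at h7
  obtain ⟨e1, e2, e3, e4, e5⟩ := h5
  rcases h7 with rfl | rfl | rfl | rfl | rfl
  · exact e1
  · exact e2
  · exact e3
  · exact e4
  · exact e5

theorem low_ind : Ind 1 low Set.univ := by
  let G : ℕ → Finset ℕ := fun b => if b = 0 then {1, 6, 10, 12, 14} else {1}
  let L : ℕ → ℕ := fun b => if b = 0 then 6 else 1
  have hust : ∀ b, ust L (b + 1) = b + 6 := by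
    intro b
    induction b with
    | zero => rfl
    | succ b ih =>
      rw [ust_succ, ih]
      have : L (b + 1) = 1 := if_neg (by omega)
      omega
  refine ind_blocks (G := G) (L := L) ?_ ?_ low_mono.injective
    (fun i => i - 4) (fun i => if i < 5 then low i else 1) ?_ ?_
  · intro b
    by_cases h : b = 0
    · have : G b = {1, 6, 10, 12, 14} := if_pos h
      rw [this]
      exact ind_five
    · have : G b = {1} := if_neg h
      rw [this]
      exact ind_mono (fun i hi => by
        have : i = 1 := by simpa using hi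
        rw [this]
        decide) ind_five
  · intro b
    by_cases h : b = 0
    · subst h
      decide
    · have h1 : G b = {1} := if_neg h
      have h2 : L b = 1 := if_neg h
      rw [h1, h2]
      decide
  · intro i
    rcases Nat.lt_or_ge i 5 with h | h
    · rw [if_pos h]
      have : G (i - 4) = {1, 6, 10, 12, 14} := if_pos (by omega)
      rw [this]
      interval_cases i <;> decide
    · rw [if_neg (by omega)]
      have : G (i - 4) = {1} := if_neg (by omega)
      rw [this]
      decide
  · intro i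
    rcases Nat.lt_or_ge i 5 with h | h
    · rw [if_pos h, show i - 4 = 0 by omega]
      unfold ust
      simp
    · rw [if_neg (by omega)]
      obtain ⟨j, rfl⟩ := Nat.exists_eq_add_of_le h
      rw [show 5 + j - 4 = j + 1 by omega, hust, mul_one, add_comm 5 j, low_five]

theorem low_count (x : ℕ) (hx : 1 ≤ x) :
    Real.logb 2 x ≤ ({i | low i ≤ x}.ncard : ℝ) + 2 := by
  classical
  have hfin : {i | low i ≤ x}.Finite := by
    apply (Set.finite_Iic x).subset
    intro i hi
    exact (low_mono.id_le i).trans hi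
  have hcard : ∀ n, low n ≤ x → n + 1 ≤ {i | low i ≤ x}.ncard := by
    intro n hn
    have h1 : (((range (n + 1) : Finset ℕ) : Set ℕ)).ncard ≤ {i | low i ≤ x}.ncard := by
      apply Set.ncard_le_ncard _ hfin
      intro i hi
      rw [Finset.mem_coe, Finset.mem_range] at hi
      exact (low_mono.monotone (Nat.lt_succ_iff.1 hi)).trans hn
    rwa [Set.ncard_coe_finset, Finset.card_range] at h1
  have hlog : ∀ k : ℕ, x < 2 ^ k → Real.logb 2 x ≤ k := by
    intro k hk
    rw [Real.logb_le_iff_le_rpow (by norm_num) (by exact_mod_cast hx), Real.rpow_natCast]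
    exact_mod_cast hk.le
  have fin : ∀ n k : ℕ, low n ≤ x → x < 2 ^ k → k ≤ n + 3 →
      Real.logb 2 x ≤ ({i | low i ≤ x}.ncard : ℝ) + 2 := by
    intro n k h1 h2 h3
    have h4 := hcard n h1
    have h5 := hlog k h2
    have h6 : ((n + 1 : ℕ) : ℝ) ≤ ({i | low i ≤ x}.ncard : ℝ) := by exact_mod_cast h4
    have h7 : (k : ℝ) ≤ ((n + 3 : ℕ) : ℝ) := by exact_mod_cast h3
    push_cast at h6 h7
    linarith
  rcases Nat.lt_or_ge x 6 with h | h
  · exact fin 0 3 (by rw [show low 0 = 1 from rfl]; exact hx) (by omega) (by omega)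
  rcases Nat.lt_or_ge x 16 with h' | h'
  · exact fin 1 4 (by rw [show low 1 = 6 from rfl]; exact h) (by omega) (by omega)
  rcases Nat.lt_or_ge x 64 with h'' | h''
  · exact fin 4 6 (by rw [show low 4 = 14 from rfl]; omega) (by omega) (by omega)
  · have h1 : 6 ≤ Nat.log 2 x := by
      apply Nat.le_log_of_pow_le (by norm_num)
      exact h''
    obtain ⟨j, hj⟩ := Nat.exists_eq_add_of_le h1
    refine fin (j + 5) (j + 7) ?_ ?_ (by omega)
    · rw [low_five]
      have := Nat.pow_log_le_self 2 (x := x) (by omega)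
      rwa [hj, add_comm] at this
    · have := Nat.lt_pow_succ_log_self (b := 2) (by norm_num) x
      rwa [hj, show (6 + j).succ = j + 7 by omega] at this

theorem low_col : ¬ ∃ f : ℕ → Fin 2, ∀ j, Ind 2 low {i | f i = j} := by
  rintro ⟨f, hf⟩
  have key : ∀ (j : Fin 2) (s : Finset ℕ) (ε : ℕ → ℤ), (∀ i ∈ s, |ε i| ≤ 2) →
      (∑ i ∈ s, ε i * (low i : ℤ) = 0) → (∃ i ∈ s, ε i ≠ 0) → ¬ ∀ i ∈ s, f i = j := by
    rintro j s ε hε hsum ⟨i, hi, hne⟩ hcon
    exact hne (hf j s hcon ε (by exact_mod_cast hε) hsum i hi)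
  -- the seven relations
  have r1 : ∀ j, ¬ ∀ i ∈ ({1, 3} : Finset ℕ), f i = j := fun j =>
    key j _ (fun i => if i = 1 then 2 else -1) (by decide) (by decide) (by decide)
  have r2 : ∀ j, ¬ ∀ i ∈ ({2, 3, 4} : Finset ℕ), f i = j := fun j =>
    key j _ (fun i => if i = 3 then -2 else 1) (by decide) (by decide) (by decide)
  have r3 : ∀ j, ¬ ∀ i ∈ ({1, 2, 4} : Finset ℕ), f i = j := fun j =>
    key j _ (fun i => if i = 2 then -2 else 1) (by decide) (by decide) (by decide)
  have r4 : ∀ j, ¬ ∀ i ∈ ({0, 1, 2} : Finset ℕ), f i = j := fun j =>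
    key j _ (fun i => if i = 0 then 2 else if i = 1 then -2 else 1) (by decide) (by decide)
      (by decide)
  have r5 : ∀ j, ¬ ∀ i ∈ ({0, 3, 4} : Finset ℕ), f i = j := fun j =>
    key j _ (fun i => if i = 0 then 2 else if i = 3 then 1 else -1) (by decide) (by decide)
      (by decide)
  have r6 : ∀ j, ¬ ∀ i ∈ ({0, 2, 3} : Finset ℕ), f i = j := fun j =>
    key j _ (fun i => if i = 0 then 2 else if i = 2 then 1 else -1) (by decide) (by decide)
      (by decide)
  have r7 : ∀ j, ¬ ∀ i ∈ ({0, 1, 4} : Finset ℕ), f i = j := fun j =>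
    key j _ (fun i => if i = 0 then 2 else if i = 1 then 2 else -1) (by decide) (by decide)
      (by decide)
  simp only [Finset.mem_insert, Finset.mem_singleton, forall_eq_or_imp, forall_eq] at r1 r2 r3 r4 r5 r6 r7
  revert r1 r2 r3 r4 r5 r6 r7
  generalize f 0 = x0
  generalize f 1 = x1
  generalize f 2 = x2
  generalize f 3 = x3
  generalize f 4 = x4
  revert x0 x1 x2 x3 x4
  decide

end Pool.Agent.H5.WI
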