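import Mathlib

set_option autoImplicit false

/-!
# The second moment bound for distinct subset sums
-/

namespace Pool.Agent.H5.WI

open Finset

/-- the sum of the squares of all signed sums -/
theorem sum_sq_signed (a : ℕ → ℤ) (S : Finset ℕ) :
    ∑ A ∈ S.powerset, (2 * ∑ i ∈ A, a i - ∑ i ∈ S, a i) ^ 2 = 2 ^ S.card * ∑ i ∈ S, a i ^ 2 := by
  induction S using Finset.induction_on with
  | empty => simp
  | insert i S hi ih =>
    rw [Finset.sum_powerset_insert hi, Finset.card_insert_of_notMem hi, Finset.sum_insert hi,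
      Finset.sum_insert hi, pow_succ]
    have h1 : ∀ A ∈ S.powerset, ∑ j ∈ insert i A, a j = a i + ∑ j ∈ A, a j := by
      intro A hA
      exact Finset.sum_insert fun h => hi (Finset.mem_powerset.1 hA h)
    rw [Finset.sum_congr rfl (g := fun A => (a i + (2 * ∑ j ∈ A, a j - ∑ j ∈ S, a j)) ^ 2)
      (s₁ := S.powerset) (f := fun A => (2 * ∑ j ∈ insert i A, a j - (a i + ∑ j ∈ S, a j)) ^ 2)
      (fun A hA => by
        rw [h1 A hA]
        ring)]
    rw [← Finset.sum_add_distrib]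
    have h2 : ∀ A ∈ S.powerset, (2 * ∑ j ∈ A, a j - (a i + ∑ j ∈ S, a j)) ^ 2 +
        (a i + (2 * ∑ j ∈ A, a j - ∑ j ∈ S, a j)) ^ 2 =
        2 * (2 * ∑ j ∈ A, a j - ∑ j ∈ S, a j) ^ 2 + 2 * a i ^ 2 := fun A _ => by ring
    rw [Finset.sum_congr rfl h2, Finset.sum_add_distrib, ← Finset.mul_sum, ih, Finset.sum_const,
      Finset.card_powerset, nsmul_eq_mul]
    push_cast
    ring

/-- if the subset sums are distinct then the squares are large -/
theorem four_pow_le (a : ℕ → ℤ) (S : Finset ℕ) (hS : S.Nonempty)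
    (hinj : ∀ A ⊆ S, ∀ B ⊆ S, ∑ i ∈ A, a i = ∑ i ∈ B, a i → A = B) :
    4 ^ S.card ≤ 32 * ∑ i ∈ S, a i ^ 2 := by
  classical
  set F : Finset ℕ → ℤ := fun A => 2 * ∑ i ∈ A, a i - ∑ i ∈ S, a i with hF
  set n := S.card with hn
  have hn1 : 1 ≤ n := Finset.card_pos.2 hS
  obtain ⟨k, hk⟩ : ∃ k, n = k + 1 := ⟨n - 1, by omega⟩
  -- small values
  set Sm := S.powerset.filter fun A => 4 * |F A| < 2 ^ n with hSm
  set La := S.powerset.filter fun A => ¬ 4 * |F A| < 2 ^ n with hLa
  have hcard : Sm.card + La.card = 2 ^ n := by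
    rw [hSm, hLa, Finset.card_filter_add_card_filter_not, Finset.card_powerset]
  have hSmc : Sm.card ≤ 2 ^ k := by
    have h2 : ∀ A ∈ Sm, F A ∈ (Finset.range (2 ^ k)).image (fun x : ℕ => (x : ℤ) - 2 ^ k / 2) := by
      intro A hA
      have h3 := (Finset.mem_filter.1 hA).2
      rw [Finset.mem_image]
      have h4 : 2 * |F A| < 2 ^ k := by
        rw [hk, pow_succ] at h3
        linarith
      have h5 := abs_lt.1 (show |F A| < 2 ^ k from by
        have := abs_nonneg (F A)
        linarith)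
      rcases Nat.eq_zero_or_pos k with h0 | h0
      · subst h0
        have h6 : F A = 0 := by
          have := abs_nonneg (F A)
          have h7 : |F A| = 0 := by
            simp at h4
            omega
          exact abs_eq_zero.1 h7
        exact ⟨0, by simp, by rw [h6]; simp⟩
      · obtain ⟨k', rfl⟩ : ∃ k', k = k' + 1 := ⟨k - 1, by omega⟩
        have e1 : (2 : ℤ) ^ (k' + 1) / 2 = 2 ^ k' := by
          rw [pow_succ, Int.mul_ediv_cancel _ (by norm_num)]
        rw [e1]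
        have h6 : |F A| < 2 ^ k' := by
          rw [pow_succ] at h4
          linarith
        have h7 := abs_lt.1 h6
        refine ⟨(F A + 2 ^ k').toNat, ?_, ?_⟩
        · rw [Finset.mem_range]
          have h8 : (2 ^ (k' + 1) : ℕ) = 2 ^ k' + 2 ^ k' := by ring
          have h9 : ((F A + 2 ^ k').toNat : ℤ) = F A + 2 ^ k' := Int.toNat_of_nonneg (by linarith)
          have h10 : ((F A + 2 ^ k').toNat : ℤ) < ((2 ^ (k' + 1) : ℕ) : ℤ) := by
            rw [h9, h8]
            push_cast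
            linarith
          exact_mod_cast h10
        · rw [Int.toNat_of_nonneg (by linarith)]
          ring
    have hFinj : Set.InjOn F (Sm : Set (Finset ℕ)) := by
      intro A hA B hB hAB
      have hA' := Finset.mem_powerset.1 (Finset.mem_filter.1 hA).1
      have hB' := Finset.mem_powerset.1 (Finset.mem_filter.1 hB).1
      apply hinj A hA' B hB'
      simp only [hF] at hAB
      linarith
    have h3 := Finset.card_le_card_of_injOn F h2 hFinj
    refine h3.trans (Finset.card_image_le.trans ?_)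
    rw [Finset.card_range]
  have hLac : 2 ^ k ≤ La.card := by
    have : 2 ^ n = 2 ^ k + 2 ^ k := by rw [hk, pow_succ]; ring
    omega
  have hsum := sum_sq_signed a S
  have h1 : ∑ A ∈ La, (2 ^ n) ^ 2 ≤ 16 * ∑ A ∈ S.powerset, F A ^ 2 := by
    calc ∑ A ∈ La, ((2 : ℤ) ^ n) ^ 2 ≤ ∑ A ∈ La, 16 * F A ^ 2 := by
          apply Finset.sum_le_sum
          intro A hA
          have h2 := (Finset.mem_filter.1 hA).2
          push Not at h2
          have h3 : ((2 : ℤ) ^ n) ^ 2 ≤ (4 * |F A|) ^ 2 := pow_le_pow_left₀ (by positivity) h2 2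
          calc ((2 : ℤ) ^ n) ^ 2 ≤ (4 * |F A|) ^ 2 := h3
            _ = 16 * F A ^ 2 := by rw [mul_pow, sq_abs]; norm_num
      _ ≤ ∑ A ∈ S.powerset, 16 * F A ^ 2 := by
          apply Finset.sum_le_sum_of_subset_of_nonneg (Finset.filter_subset _ _)
          intro A _ _
          positivity
      _ = 16 * ∑ A ∈ S.powerset, F A ^ 2 := by rw [Finset.mul_sum]
  rw [hsum, Finset.sum_const, nsmul_eq_mul] at h1
  have h2 : (2 : ℤ) ^ k * (2 ^ n) ^ 2 ≤ 16 * (2 ^ n * ∑ i ∈ S, a i ^ 2) := by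
    refine le_trans ?_ h1
    apply mul_le_mul_of_nonneg_right _ (by positivity)
    exact_mod_cast hLac
  have h3 : (2 : ℤ) ^ n = 2 * 2 ^ k := by rw [hk, pow_succ]; ring
  have h4 : (4 : ℤ) ^ n = (2 ^ n) ^ 2 := by
    rw [← pow_mul, mul_comm, pow_mul]; norm_num
  have h5 : (0 : ℤ) < 2 ^ k := by positivity
  have h6 : (2 : ℤ) ^ k * (4 ^ n) ≤ 2 ^ k * (32 * ∑ i ∈ S, a i ^ 2) := by
    rw [h4]
    calc (2 : ℤ) ^ k * (2 ^ n) ^ 2 ≤ 16 * (2 ^ n * ∑ i ∈ S, a i ^ 2) := h2
      _ = 2 ^ k * (32 * ∑ i ∈ S, a i ^ 2) := by rw [h3]; ring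
  exact le_of_mul_le_mul_left h6 h5

end Pool.Agent.H5.WI
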